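import Mathlib
import Pool.Agent.H95.VG.Targets3
import Pool.Agent.H57.VG.L1

/-!
# VG module POI: the `L¹` Poincaré lemma on convex open sets
-/

set_option autoImplicit false

open MeasureTheory Set Filter Topology
open scoped ContDiff ENNReal Convolution

namespace Pool.Agent.H57.VG

open Pool.Agent.H95.VG Pool.Agent.H92.Lip.M2

variable {n : ℕ}

theorem int_ind {D : Set (V n)} (hD : MeasurableSet D) {β : V n → V n →L[ℝ] ℝ}
    (h : IntegrableOn β D) : Integrable (D.indicator β) := by
  have := (integrable_indicator_iff (f := β) (μ := volume) hD).2 h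
  exact this

theorem enorm_add_neg_le {W : Type*} [NormedAddCommGroup W] (a b : W) :
    ‖a + -b‖ₑ ≤ ‖a‖ₑ + ‖b‖ₑ := by
  refine (enorm_add_le _ _).trans ?_
  rw [enorm_neg]

/-- cutoff function in the model space -/
theorem exists_cutoff {C U : Set (V n)} (hC : IsClosed C) (hU : IsOpen U) (hCU : C ⊆ U) :
    ∃ χ : V n → ℝ, ContDiff ℝ ∞ χ ∧ (∀ x ∈ Uᶜ, ∀ᶠ y in 𝓝 x, χ y = 0) ∧
      (∀ x ∈ C, ∀ᶠ y in 𝓝 x, χ y = 1) := by
  obtain ⟨f, h0, h1, -⟩ := exists_contMDiffMap_zero_one_nhds_of_isClosed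
    (modelWithCornersSelf ℝ (V n)) (n := (⊤ : ℕ∞)) hU.isClosed_compl hC
    (disjoint_compl_left_iff_subset.2 hCU)
  refine ⟨f, ?_, ?_, ?_⟩
  · exact contMDiff_iff_contDiff.1 f.contMDiff
  · intro x hx
    exact (eventually_nhdsSet_iff_forall.1 h0) x hx
  · intro x hx
    exact (eventually_nhdsSet_iff_forall.1 h1) x hx

/-- the derivative of a mollification, applied twice -/
theorem fderiv_mol_apply {m : ℕ} {b : V n → V n →L[ℝ] ℝ} (hb : LocallyIntegrable b)
    (x v v' : V n) :
    fderiv ℝ (mol (rh n m) b) x v v' = ∫ t, fderiv ℝ (rh n m) (x - t) v * b t v' := by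
  rw [fderiv_mol (rh_smooth m) (rh_cpt m) hb]
  have hI : Integrable (fun t => (fderiv ℝ (rh n m) (x - t) v) • b t) := by
    refine hb.integrable_smul_left_of_hasCompactSupport ?_ ?_
    · have h1 : Continuous (fderiv ℝ (rh n m)) := (rh_smooth m).continuous_fderiv (by simp)
      exact (h1.comp (continuous_const.sub continuous_id)).clm_apply continuous_const
    · have h2 : HasCompactSupport (fun y => fderiv ℝ (rh n m) y v) := by
        have := (rh_cpt (n := n) m).fderiv (𝕜 := ℝ)
        exact this.mono (fun y hy => by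
          rw [Function.mem_support] at hy ⊢
          intro h
          apply hy
          rw [h]; simp)
      exact h2.comp_homeomorph (Homeomorph.subLeft x)
  rw [ContinuousLinearMap.integral_apply hI]
  rfl

/-- weak closedness gives closedness of the mollifications -/
theorem mol_closed {Q D : Set (V n)} {β : V n → V n →L[ℝ] ℝ} (hQ : IsOpen Q)
    (hcl : WCl Q β) (hD : IsCompact D) (hDQ : D ⊆ Q) (hβD : IntegrableOn β D) {m : ℕ} {x : V n}
    (hx : Metric.closedBall x (1 / ((m : ℝ) + 1)) ⊆ D) (v v' : V n) :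
    fderiv ℝ (mol (rh n m) (D.indicator β)) x v v'
      = fderiv ℝ (mol (rh n m) (D.indicator β)) x v' v := by
  have hb : Integrable (D.indicator β) := int_ind hD.measurableSet hβD
  rw [fderiv_mol_apply hb.locallyIntegrable, fderiv_mol_apply hb.locallyIntegrable]
  set p : V n → ℝ := fun t => rh n m (x - t) with hp
  have hps : ContDiff ℝ ∞ p := (rh_smooth m).comp (contDiff_const.sub contDiff_id)
  have hder : ∀ t v, fderiv ℝ p t v = - fderiv ℝ (rh n m) (x - t) v := by
    intro t v
    have h1 : HasFDerivAt (fun t : V n => x - t) (-(ContinuousLinearMap.id ℝ (V n))) t := by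
      have := (hasFDerivAt_id (𝕜 := ℝ) t).const_sub x
      simpa using this
    have h2 : HasFDerivAt (rh n m) (fderiv ℝ (rh n m) (x - t)) (x - t) :=
      (((rh_smooth m).differentiable (by simp)).differentiableAt).hasFDerivAt
    have h3 := (h2.comp t h1).fderiv
    have h4 : fderiv ℝ p t = (fderiv ℝ (rh n m) (x - t)).comp (-(ContinuousLinearMap.id ℝ (V n))) :=
      h3
    rw [h4]
    simp
  have hsupp : ∀ t ∉ D, rh n m (x - t) = 0 := by
    intro t ht
    by_contra hne
    apply ht
    apply hx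
    have h2 : x - t ∈ tsupport (rh n m) := subset_tsupport _ hne
    rw [rh_tsupport, mem_closedBall_zero_iff] at h2
    rw [mem_closedBall_iff_norm, norm_sub_rev]
    exact h2
  have hts : tsupport p ⊆ Metric.closedBall x (1 / ((m : ℝ) + 1)) := by
    apply closure_minimal _ Metric.isClosed_closedBall
    intro t ht
    have h2 : x - t ∈ tsupport (rh n m) := subset_tsupport _ ht
    rw [rh_tsupport, mem_closedBall_zero_iff] at h2
    rw [mem_closedBall_iff_norm, norm_sub_rev]
    exact h2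
  have hpc : HasCompactSupport p :=
    (isCompact_closedBall x (1 / ((m : ℝ) + 1))).of_isClosed_subset (isClosed_tsupport p) hts
  have h5 := hcl p hps hpc (hts.trans (hx.trans hDQ)) v' v
  have hfz : ∀ t ∉ D, ∀ w, fderiv ℝ (rh n m) (x - t) w = 0 := by
    intro t ht w
    have h6 : t ∉ tsupport (fderiv ℝ p) := by
      intro h
      exact ht (hx (hts (tsupport_fderiv_subset ℝ h)))
    have h7 : fderiv ℝ p t = 0 := image_eq_zero_of_notMem_tsupport h6
    have h8 := hder t w
    rw [h7] at h8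
    simpa using h8.symm
  have hI : ∀ v v' : V n, Integrable (fun t => fderiv ℝ (rh n m) (x - t) v *
      (D.indicator β t) v') := by
    intro v v'
    have hc : Continuous fun t => fderiv ℝ (rh n m) (x - t) v := by
      have h1 : Continuous (fderiv ℝ (rh n m)) := (rh_smooth m).continuous_fderiv (by simp)
      exact (h1.comp (continuous_const.sub continuous_id)).clm_apply continuous_const
    have hcs : HasCompactSupport fun t => fderiv ℝ (rh n m) (x - t) v :=
      HasCompactSupport.intro hD (fun t ht => hfz t ht v)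
    have h9 : Integrable fun t => (D.indicator β t) v' :=
      ((ContinuousLinearMap.apply ℝ ℝ v').integrable_comp hb)
    have := h9.locallyIntegrable.integrable_smul_left_of_hasCompactSupport hc hcs
    simpa [smul_eq_mul] using this
  have h10 : ∫ z in Q, (β z v' * fderiv ℝ p z v - β z v * fderiv ℝ p z v')
      = ∫ z, (fderiv ℝ (rh n m) (x - z) v' * (D.indicator β z) v
          - fderiv ℝ (rh n m) (x - z) v * (D.indicator β z) v') := by
    rw [← integral_indicator hQ.measurableSet]
    congr 1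
    ext z
    by_cases hzD : z ∈ D
    · rw [indicator_of_mem (hDQ hzD), indicator_of_mem hzD, hder, hder]
      ring
    · rw [hfz z hzD, hfz z hzD]
      by_cases hzQ : z ∈ Q
      · rw [indicator_of_mem hzQ, hder, hder, hfz z hzD, hfz z hzD]
        simp
      · rw [indicator_of_notMem hzQ]
        simp
  rw [h10, integral_sub (hI v' v) (hI v v')] at h5
  linarith

/-- `F` has normalised smooth approximations on `C` -/
def App (θ : V n → ℝ) (C : Set (V n)) (F : V n → ℝ) (β : V n → V n →L[ℝ] ℝ) : Prop :=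
  ∃ G : ℕ → V n → ℝ, (∀ j, ContDiff ℝ ∞ (G j)) ∧ (∀ j, ∫ y, θ y * G j y = 0) ∧
    Tendsto (fun j => ∫⁻ z in C, ‖G j z - F z‖ₑ) atTop (𝓝 0) ∧
    Tendsto (fun j => ∫⁻ z in C, ‖fderiv ℝ (G j) z - β z‖ₑ) atTop (𝓝 0)

theorem App.mono {θ : V n → ℝ} {C C' : Set (V n)} {F : V n → ℝ} {β : V n → V n →L[ℝ] ℝ}
    (h : App θ C' F β) (hC : C ⊆ C') : App θ C F β := by
  obtain ⟨G, h1, h2, h3, h4⟩ := h
  refine ⟨G, h1, h2, ?_, ?_⟩
  · exact tendsto_of_tendsto_of_tendsto_of_le_of_le tendsto_const_nhds h3 (fun j => zero_le)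
      (fun j => lintegral_mono_set hC)
  · exact tendsto_of_tendsto_of_tendsto_of_le_of_le tendsto_const_nhds h4 (fun j => zero_le)
      (fun j => lintegral_mono_set hC)

theorem App.unique {θ : V n → ℝ} {C : Set (V n)} {F F' : V n → ℝ} {β : V n → V n →L[ℝ] ℝ}
    (hC : IsCompact C) (hconv : Convex ℝ C)
    (hθ : Continuous θ) (hθC : ∀ y ∉ C, θ y = 0) (hθ1 : ∫ y, θ y = 1)
    (hβ : IntegrableOn β C) (hF : IntegrableOn F C) (hF' : IntegrableOn F' C)
    (h : App θ C F β) (h' : App θ C F' β) : F =ᵐ[volume.restrict C] F' := by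
  obtain ⟨G, h1, h2, h3, h4⟩ := h
  obtain ⟨G', h1', h2', h3', h4'⟩ := h'
  obtain ⟨M, hM, hP⟩ := poincare hC hconv hθ hθC hθ1
  have hθc : HasCompactSupport θ := HasCompactSupport.intro hC hθC
  have key : ∀ j, ∫⁻ z in C, ‖F z - F' z‖ₑ ≤ (∫⁻ z in C, ‖G j z - F z‖ₑ) +
      (M * ((∫⁻ z in C, ‖fderiv ℝ (G j) z - β z‖ₑ) + ∫⁻ z in C, ‖fderiv ℝ (G' j) z - β z‖ₑ)
        + ∫⁻ z in C, ‖G' j z - F' z‖ₑ) := by
    intro j
    have hs : ContDiff ℝ ∞ (fun z => G j z - G' j z) := (h1 j).sub (h1' j)
    have e0 : ∫ y, θ y * (G j y - G' j y) = 0 := by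
      have i1 : Integrable fun y => θ y * G j y :=
        (hθ.mul (h1 j).continuous).integrable_of_hasCompactSupport hθc.mul_right
      have i2 : Integrable fun y => θ y * G' j y :=
        (hθ.mul (h1' j).continuous).integrable_of_hasCompactSupport hθc.mul_right
      simp_rw [mul_sub]
      rw [integral_sub i1 i2, h2, h2', sub_zero]
    have hP1 := hP _ (hs.of_le (by simp))
    rw [e0] at hP1
    simp only [sub_zero] at hP1
    have m1 : AEMeasurable (fun z => ‖G j z - F z‖ₑ) (volume.restrict C) :=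
      (((h1 j).continuous.aestronglyMeasurable).sub hF.1).enorm
    have m2 : AEMeasurable (fun z => ‖G j z - G' j z‖ₑ) (volume.restrict C) :=
      hs.continuous.enorm.aemeasurable
    have m3 : AEMeasurable (fun z => ‖fderiv ℝ (G j) z - β z‖ₑ) (volume.restrict C) :=
      ((((h1 j).continuous_fderiv (by simp)).aestronglyMeasurable).sub hβ.1).enorm
    calc ∫⁻ z in C, ‖F z - F' z‖ₑ
        ≤ ∫⁻ z in C, (‖G j z - F z‖ₑ + (‖G j z - G' j z‖ₑ + ‖G' j z - F' z‖ₑ)) := by
          apply lintegral_mono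
          intro z
          have e : F z - F' z = -(G j z - F z) + ((G j z - G' j z) + (G' j z - F' z)) := by ring
          dsimp only
          rw [e]
          refine (enorm_add_le _ _).trans ?_
          rw [enorm_neg]
          gcongr
          exact enorm_add_le _ _
      _ = (∫⁻ z in C, ‖G j z - F z‖ₑ) + ((∫⁻ z in C, ‖G j z - G' j z‖ₑ)
            + ∫⁻ z in C, ‖G' j z - F' z‖ₑ) := by
          rw [lintegral_add_left' m1, lintegral_add_left' m2]
      _ ≤ _ := by
          gcongr
          refine hP1.trans ?_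
          gcongr
          calc ∫⁻ z in C, ‖fderiv ℝ (fun z => G j z - G' j z) z‖ₑ
              ≤ ∫⁻ z in C, (‖fderiv ℝ (G j) z - β z‖ₑ + ‖fderiv ℝ (G' j) z - β z‖ₑ) := by
                apply lintegral_mono
                intro z
                have e : fderiv ℝ (fun z => G j z - G' j z) z
                    = (fderiv ℝ (G j) z - β z) + -(fderiv ℝ (G' j) z - β z) := by
                  rw [fderiv_fun_sub (((h1 j).differentiable (by simp)).differentiableAt)
                    (((h1' j).differentiable (by simp)).differentiableAt)]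
                  abel
                dsimp only
                rw [e]
                exact enorm_add_neg_le _ _
            _ = _ := lintegral_add_left' m3 _
  have lim : Tendsto (fun j => (∫⁻ z in C, ‖G j z - F z‖ₑ) +
      (M * ((∫⁻ z in C, ‖fderiv ℝ (G j) z - β z‖ₑ) + ∫⁻ z in C, ‖fderiv ℝ (G' j) z - β z‖ₑ)
        + ∫⁻ z in C, ‖G' j z - F' z‖ₑ)) atTop (𝓝 (0 + (M * (0 + 0) + 0))) :=
    h3.add ((ENNReal.Tendsto.const_mul (h4.add h4') (Or.inr hM)).add h3')
  simp only [add_zero, mul_zero] at lim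
  have hz : ∫⁻ z in C, ‖F z - F' z‖ₑ = 0 := le_antisymm (ge_of_tendsto' lim key) zero_le
  have hme : AEMeasurable (fun z => ‖F z - F' z‖ₑ) (volume.restrict C) := (hF.1.sub hF'.1).enorm
  have h5 := (lintegral_eq_zero_iff' hme).1 hz
  filter_upwards [h5] with z hz
  simpa [sub_eq_zero] using hz

/-- existence of a normalised primitive on a compact convex set -/
theorem exists_on {Q : Set (V n)} {β : V n → V n →L[ℝ] ℝ} (hQ : IsOpen Q)
    (hβ : LocallyIntegrableOn β Q) (hcl : WCl Q β) {C : Set (V n)} (hC : IsCompact C)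
    (hconv : Convex ℝ C) (hCQ : C ⊆ Q) {θ : V n → ℝ} (hθ : Continuous θ)
    (hθC : ∀ y ∉ C, θ y = 0) (hθ1 : ∫ y, θ y = 1) :
    ∃ F : V n → ℝ, IntegrableOn F C ∧ App θ C F β := by
  obtain ⟨δ', hδ', hδQ⟩ := hC.exists_cthickening_subset_open hQ hCQ
  obtain ⟨δ, hδ, rfl⟩ : ∃ δ, 0 < δ ∧ δ' = δ + δ := ⟨δ' / 2, by positivity, by ring⟩
  set D : Set (V n) := Metric.cthickening (δ + δ) C with hDdef
  have hD : IsCompact D := hC.cthickening
  set U : Set (V n) := Metric.thickening δ C with hUdef
  have hUo : IsOpen U := Metric.isOpen_thickening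
  have hUc : Convex ℝ U := hconv.thickening δ
  have hCU : C ⊆ U := Metric.self_subset_thickening hδ C
  have hβD : IntegrableOn β D := hβ.integrableOn_compact_subset hδQ hD
  set b : V n → V n →L[ℝ] ℝ := D.indicator β with hbdef
  have hb : Integrable b := int_ind hD.measurableSet hβD
  have hUD : ∀ x ∈ U, ∀ r ≤ δ, Metric.closedBall x r ⊆ D := by
    intro x hx r hr y hy
    apply Metric.cthickening_thickening_subset hδ.le δ C
    exact Metric.mem_cthickening_of_dist_le y x δ U hx ((Metric.mem_closedBall.1 hy).trans hr)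
  obtain ⟨χ, hχs, hχ0, hχ1⟩ := exists_cutoff hC.isClosed hUo hCU
  have hθc : HasCompactSupport θ := HasCompactSupport.intro hC hθC
  -- primitives of the mollifications
  have prim : ∀ m : ℕ, 1 / ((m : ℝ) + 1) ≤ δ → ∃ g : V n → ℝ, ContDiff ℝ ∞ g ∧
      ∫ y, θ y * g y = 0 ∧ ∀ x ∈ C, fderiv ℝ g x = mol (rh n m) b x := by
    intro m hm
    have hw : ContDiff ℝ ∞ (mol (rh n m) b) :=
      contDiff_mol (rh_smooth m) (rh_cpt m) hb.locallyIntegrable
    obtain ⟨f, hf⟩ := hUc.exists_forall_hasFDerivAt_of_fderiv_symmetric hUo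
      (hw.differentiable (by simp)).differentiableOn
      (fun x hx v v' => mol_closed hQ hcl hD hδQ hβD (hUD x hx _ hm) v v')
    have hfs : ContDiffOn ℝ ∞ f U := by
      rw [contDiffOn_infty_iff_fderiv_of_isOpen hUo]
      refine ⟨fun x hx => (hf x hx).differentiableAt.differentiableWithinAt, ?_⟩
      exact hw.contDiffOn.congr fun x hx => (hf x hx).fderiv
    have hg0 : ContDiff ℝ ∞ (fun x => χ x * f x) := by
      rw [contDiff_iff_contDiffAt]
      intro x
      by_cases hx : x ∈ U
      · exact hχs.contDiffAt.mul (hfs.contDiffAt (hUo.mem_nhds hx))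
      · have : (fun x => χ x * f x) =ᶠ[𝓝 x] fun _ => 0 := by
          filter_upwards [hχ0 x hx] with y hy
          rw [hy, zero_mul]
        exact contDiffAt_const.congr_of_eventuallyEq this
    refine ⟨fun x => χ x * f x - ∫ y, θ y * (χ y * f y), hg0.sub contDiff_const, ?_, ?_⟩
    · have i1 : Integrable fun y => θ y * (χ y * f y) :=
        (hθ.mul hg0.continuous).integrable_of_hasCompactSupport hθc.mul_right
      have i2 : Integrable θ := hθ.integrable_of_hasCompactSupport hθc
      simp_rw [mul_sub]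
      rw [integral_sub i1 (i2.mul_const _), integral_mul_const, hθ1]
      ring
    · intro x hx
      have h1 : (fun x => χ x * f x - ∫ y, θ y * (χ y * f y)) =ᶠ[𝓝 x]
          fun x => f x - ∫ y, θ y * (χ y * f y) := by
        filter_upwards [hχ1 x hx] with y hy
        rw [hy, one_mul]
      rw [h1.fderiv_eq, fderiv_sub_const]
      exact (hf x (hCU hx)).fderiv
  -- fast subsequence
  have hlim := mol_tendsto_l1 hb
  have hex : ∀ k : ℕ, ∃ m : ℕ, 1 / ((m : ℝ) + 1) ≤ δ ∧
      ∫⁻ x, ‖mol (rh n m) b x - b x‖ₑ ≤ (1 / 2 : ℝ≥0∞) ^ k := by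
    intro k
    have h1 : ∀ᶠ m : ℕ in atTop, 1 / ((m : ℝ) + 1) ≤ δ := by
      have := tendsto_one_div_add_atTop_nhds_zero_nat (𝕜 := ℝ)
      filter_upwards [this.eventually (gt_mem_nhds hδ)] with m hm using hm.le
    have h2 := (ENNReal.tendsto_nhds_zero.1 hlim) ((1 / 2 : ℝ≥0∞) ^ k)
      (ENNReal.pow_pos (by simp) k)
    exact (h1.and h2).exists
  choose φ hφ1 hφ2 using hex
  choose g hgs hg0 hgd using fun k => prim (φ k) (hφ1 k)
  obtain ⟨M, hM, hP⟩ := poincare hC hconv hθ hθC hθ1
  have hd1 : ∀ k, ∫⁻ z in C, ‖fderiv ℝ (g k) z - β z‖ₑ ≤ (1 / 2 : ℝ≥0∞) ^ k := by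
    intro k
    calc ∫⁻ z in C, ‖fderiv ℝ (g k) z - β z‖ₑ
        = ∫⁻ z in C, ‖mol (rh n (φ k)) b z - b z‖ₑ := by
          apply setLIntegral_congr_fun hC.measurableSet
          intro z hz
          have hzD : z ∈ D := Metric.self_subset_cthickening C hz
          simp only
          rw [hgd k z hz, hbdef, indicator_of_mem hzD]
      _ ≤ ∫⁻ z, ‖mol (rh n (φ k)) b z - b z‖ₑ := setLIntegral_le_lintegral _ _
      _ ≤ _ := hφ2 k
  have hpow : ∀ k l N : ℕ, N ≤ k → N ≤ l →
      (1 / 2 : ℝ≥0∞) ^ k + (1 / 2 : ℝ≥0∞) ^ l ≤ 2 * (1 / 2) ^ N := by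
    intro k l N hk hl
    rw [two_mul]
    gcongr ?_ + ?_
    · exact pow_le_pow_right_of_le_one' (by norm_num) hk
    · exact pow_le_pow_right_of_le_one' (by norm_num) hl
  have hcau : ∀ k l, ∫⁻ z in C, ‖g k z - g l z‖ₑ ≤
      M * ((1 / 2 : ℝ≥0∞) ^ k + (1 / 2 : ℝ≥0∞) ^ l) := by
    intro k l
    have hs : ContDiff ℝ ∞ (fun z => g k z - g l z) := (hgs k).sub (hgs l)
    have e0 : ∫ y, θ y * (g k y - g l y) = 0 := by
      have i1 : Integrable fun y => θ y * g k y :=
        (hθ.mul (hgs k).continuous).integrable_of_hasCompactSupport hθc.mul_right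
      have i2 : Integrable fun y => θ y * g l y :=
        (hθ.mul (hgs l).continuous).integrable_of_hasCompactSupport hθc.mul_right
      simp_rw [mul_sub]
      rw [integral_sub i1 i2, hg0, hg0, sub_zero]
    have hP1 := hP _ (hs.of_le (by simp))
    rw [e0] at hP1
    simp only [sub_zero] at hP1
    refine hP1.trans ?_
    have m3 : AEMeasurable (fun z => ‖fderiv ℝ (g k) z - β z‖ₑ) (volume.restrict C) :=
      ((((hgs k).continuous_fderiv (by simp)).aestronglyMeasurable).sub
        (hβ.integrableOn_compact_subset hCQ hC).1).enorm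
    have h6 : ∫⁻ z in C, ‖fderiv ℝ (fun z => g k z - g l z) z‖ₑ ≤
        (1 / 2 : ℝ≥0∞) ^ k + (1 / 2 : ℝ≥0∞) ^ l := by
      calc ∫⁻ z in C, ‖fderiv ℝ (fun z => g k z - g l z) z‖ₑ
          ≤ ∫⁻ z in C, (‖fderiv ℝ (g k) z - β z‖ₑ + ‖fderiv ℝ (g l) z - β z‖ₑ) := by
            apply lintegral_mono
            intro z
            have e : fderiv ℝ (fun z => g k z - g l z) z
                = (fderiv ℝ (g k) z - β z) + -(fderiv ℝ (g l) z - β z) := by
              rw [fderiv_fun_sub (((hgs k).differentiable (by simp)).differentiableAt)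
                (((hgs l).differentiable (by simp)).differentiableAt)]
              abel
            dsimp only
            rw [e]
            exact enorm_add_neg_le _ _
        _ = _ := lintegral_add_left' m3 _
        _ ≤ _ := add_le_add (hd1 k) (hd1 l)
    gcongr
  have hgint : ∀ k, MemLp (g k) 1 (volume.restrict C) := by
    intro k
    rw [memLp_one_iff_integrable]
    exact ((hgs k).continuous.locallyIntegrable).integrableOn_isCompact hC
  obtain ⟨F, hF1, hF2⟩ := Lp.cauchy_complete_eLpNorm (p := 1) (μ := volume.restrict C) le_rfl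
    hgint (B := fun N => (2 * M + 1) * (1 / 2 : ℝ≥0∞) ^ N) (by
      rw [ENNReal.tsum_mul_left]
      apply ENNReal.mul_ne_top
      · exact ENNReal.add_ne_top.2 ⟨ENNReal.mul_ne_top (by simp) hM, by simp⟩
      · rw [ENNReal.tsum_geometric]
        norm_num) (by
      intro N k l hk hl
      rw [eLpNorm_one_eq_lintegral_enorm]
      have h7 : (1 / 2 : ℝ≥0∞) ^ N ≠ 0 := (ENNReal.pow_pos (by simp) N).ne'
      have h8 : (1 / 2 : ℝ≥0∞) ^ N ≠ ⊤ := ENNReal.pow_ne_top (by simp)
      calc ∫⁻ z in C, ‖(g k - g l) z‖ₑ ≤ M * ((1 / 2 : ℝ≥0∞) ^ k + (1 / 2 : ℝ≥0∞) ^ l) := hcau k l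
        _ ≤ M * (2 * (1 / 2) ^ N) := by gcongr; exact hpow k l N hk hl
        _ = 2 * M * (1 / 2) ^ N := by ring
        _ < 2 * M * (1 / 2) ^ N + (1 / 2) ^ N := by
            apply ENNReal.lt_add_right _ h7
            exact ENNReal.mul_ne_top (ENNReal.mul_ne_top (by simp) hM) h8
        _ = (2 * M + 1) * (1 / 2 : ℝ≥0∞) ^ N := by ring)
  refine ⟨F, memLp_one_iff_integrable.1 hF1, g, hgs, hg0, ?_, ?_⟩
  · simp_rw [eLpNorm_one_eq_lintegral_enorm] at hF2
    exact hF2
  · have h9 : Tendsto (fun k : ℕ => (1 / 2 : ℝ≥0∞) ^ k) atTop (𝓝 0) :=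
      ENNReal.tendsto_pow_atTop_nhds_zero_of_lt_one (by norm_num)
    exact tendsto_of_tendsto_of_tendsto_of_le_of_le tendsto_const_nhds h9 (fun j => zero_le) hd1

/-- module POI -/
theorem poi : T_POI := by
  intro n Q β hQ hconvQ hne hβ hcl
  obtain ⟨z0, hz0⟩ := hne
  obtain ⟨r', hr', hrQ⟩ := Metric.isOpen_iff.1 hQ z0 hz0
  obtain ⟨r, hr, hr2⟩ : ∃ r, 0 < r ∧ r + r < r' := ⟨r' / 3, by positivity, by linarith⟩
  -- exhaustion
  set K : ℕ → Set (V n) := fun m =>
    {z | Metric.ball z (r / ((m : ℝ) + 1)) ⊆ Q} ∩ Metric.closedBall z0 (r + m) with hKdef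
  have hKcl : ∀ ε : ℝ, IsClosed {z : V n | Metric.ball z ε ⊆ Q} := by
    intro ε
    have e : {z : V n | Metric.ball z ε ⊆ Q}ᶜ = ⋃ w ∈ Qᶜ, Metric.ball w ε := by
      ext z
      simp only [mem_compl_iff, mem_ofPred_eq, not_subset, mem_iUnion, exists_prop]
      constructor
      · rintro ⟨w, hw, hwQ⟩
        exact ⟨w, hwQ, Metric.mem_ball_comm.1 hw⟩
      · rintro ⟨w, hwQ, hw⟩
        exact ⟨w, Metric.mem_ball_comm.1 hw, hwQ⟩
    rw [← isOpen_compl_iff, e]
    exact isOpen_biUnion fun w _ => Metric.isOpen_ball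
  have hKc : ∀ m, IsCompact (K m) := fun m =>
    (isCompact_closedBall z0 (r + m)).inter_left (hKcl _)
  have hKconv : ∀ m, Convex ℝ (K m) := by
    intro m
    apply Convex.inter _ (convex_closedBall _ _)
    intro x hx y hy a b ha hb hab w hw
    have hu : ‖w - (a • x + b • y)‖ < r / ((m : ℝ) + 1) := by
      rwa [Metric.mem_ball, dist_eq_norm] at hw
    set u := w - (a • x + b • y) with hudef
    have h1 : x + u ∈ Q := hx (by simpa [Metric.mem_ball, dist_eq_norm] using hu)
    have h2 : y + u ∈ Q := hy (by simpa [Metric.mem_ball, dist_eq_norm] using hu)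
    have h3 := hconvQ h1 h2 ha hb hab
    have e : a • (x + u) + b • (y + u) = w := by
      have : a • (x + u) + b • (y + u) = (a • x + b • y) + (a + b) • u := by
        rw [smul_add, smul_add, add_smul]; abel
      rw [this, hab, one_smul, hudef]
      abel
    rwa [e] at h3
  have hKQ : ∀ m, K m ⊆ Q := fun m z hz => hz.1 (Metric.mem_ball_self (by positivity))
  have hKmono : ∀ k m, k ≤ m → K k ⊆ K m := by
    intro k m hkm z hz
    have hkm' : (k : ℝ) ≤ m := by exact_mod_cast hkm
    refine ⟨(Metric.ball_subset_ball ?_).trans hz.1, Metric.closedBall_subset_closedBall ?_ hz.2⟩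
    · gcongr
    · gcongr
  have hKex : ∀ L ⊆ Q, IsCompact L → ∃ m, L ⊆ K m := by
    intro L hL hLc
    obtain ⟨δ, hδ, hδQ⟩ := hLc.exists_thickening_subset_open hQ hL
    obtain ⟨R, hR⟩ := hLc.isBounded.subset_closedBall z0
    have h1 : ∀ᶠ m : ℕ in atTop, r / ((m : ℝ) + 1) ≤ δ := by
      have h2 := (tendsto_one_div_add_atTop_nhds_zero_nat (𝕜 := ℝ)).const_mul r
      rw [mul_zero] at h2
      filter_upwards [h2.eventually (gt_mem_nhds hδ)] with m hm
      rw [mul_one_div] at hm
      exact hm.le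
    have h3 : ∀ᶠ m : ℕ in atTop, R ≤ (m : ℝ) :=
      tendsto_natCast_atTop_atTop.eventually_ge_atTop R
    obtain ⟨m, hm1, hm2⟩ := (h1.and h3).exists
    refine ⟨m, fun z hz => ⟨?_, ?_⟩⟩
    · refine (Metric.ball_subset_ball hm1).trans (Subset.trans ?_ hδQ)
      exact Metric.ball_subset_thickening hz δ
    · exact Metric.closedBall_subset_closedBall (by linarith) (hR hz)
  -- the weight
  let bu : ContDiffBump z0 := ⟨r / 2, r, by positivity, by linarith⟩
  set θ : V n → ℝ := bu.normed volume with hθdef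
  have hθ : Continuous θ := bu.continuous_normed
  have hθ1 : ∫ y, θ y = 1 := bu.integral_normed
  have hθ0 : ∀ y ∉ K 0, θ y = 0 := by
    intro y hy
    by_contra hne
    have h1 : y ∈ Function.support θ := hne
    rw [hθdef, bu.support_normed_eq] at h1
    apply hy
    refine ⟨?_, ?_⟩
    · refine Subset.trans ?_ hrQ
      intro w hw
      have h2 : dist w y < r := by simpa using hw
      have h3 : dist y z0 < r := h1
      rw [Metric.mem_ball]
      calc dist w z0 ≤ dist w y + dist y z0 := dist_triangle _ _ _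
        _ < r' := by linarith
    · have h3 : dist y z0 < r := h1
      rw [Metric.mem_closedBall]
      push_cast
      linarith
  have hθK : ∀ m, ∀ y ∉ K m, θ y = 0 := fun m y hy => hθ0 y fun h => hy (hKmono 0 m (Nat.zero_le m) h)
  choose Fm hFi hFa using fun m =>
    exists_on hQ hβ hcl (hKc m) (hKconv m) (hKQ m) hθ (hθK m) hθ1
  have hβK : ∀ m, IntegrableOn β (K m) := fun m => hβ.integrableOn_compact_subset (hKQ m) (hKc m)
  have hcomp : ∀ k m, k ≤ m → Fm k =ᵐ[volume.restrict (K k)] Fm m := by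
    intro k m hkm
    exact App.unique (hKc k) (hKconv k) hθ (hθK k) hθ1 (hβK k) (hFi k)
      ((hFi m).mono_set (hKmono k m hkm)) (hFa k) ((hFa m).mono (hKmono k m hkm))
  classical
  set F : V n → ℝ := fun z => if h : ∃ m, z ∈ K m then Fm (Nat.find h) z else 0 with hFdef
  have hFF : ∀ m, F =ᵐ[volume.restrict (K m)] Fm m := by
    intro m
    have h1 : ∀ k, ∀ᵐ z, k ≤ m → z ∈ K k → Fm k z = Fm m z := by
      intro k
      by_cases hkm : k ≤ m
      · have := (ae_restrict_iff' (hKc k).measurableSet).1 (hcomp k m hkm)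
        filter_upwards [this] with z hz _ hzk using hz hzk
      · filter_upwards [] with z h
        exact absurd h hkm
    rw [← ae_all_iff] at h1
    change ∀ᵐ z ∂(volume.restrict (K m)), F z = Fm m z
    rw [ae_restrict_iff' (hKc m).measurableSet]
    filter_upwards [h1] with z hz hzm
    have hex : ∃ m, z ∈ K m := ⟨m, hzm⟩
    simp only [hFdef, dif_pos hex]
    exact hz (Nat.find hex) (Nat.find_min' hex hzm) (Nat.find_spec hex)
  refine ⟨F, ?_, ?_⟩
  · intro x hx
    obtain ⟨ε, hε, hεQ⟩ := Metric.isOpen_iff.1 hQ x hx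
    have h1 : Metric.closedBall x (ε / 2) ⊆ Q :=
      (Metric.closedBall_subset_ball (by linarith)).trans hεQ
    obtain ⟨m, hm⟩ := hKex _ h1 (isCompact_closedBall x (ε / 2))
    refine ⟨Metric.closedBall x (ε / 2), ?_, ?_⟩
    · exact mem_nhdsWithin_of_mem_nhds (Metric.closedBall_mem_nhds x (by positivity))
    · have h2 : IntegrableOn F (K m) := (hFi m).congr (hFF m).symm
      exact h2.mono_set hm
  · intro L hL hLc
    obtain ⟨m, hm⟩ := hKex L hL hLc
    obtain ⟨G, h1, h2, h3, h4⟩ := (hFa m).mono hm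
    refine ⟨G, h1, ?_, ?_⟩
    · refine h3.congr fun j => ?_
      have h5 : F =ᵐ[volume.restrict L] Fm m := ae_restrict_of_ae_restrict_of_subset hm (hFF m)
      apply lintegral_congr_ae
      filter_upwards [h5] with z hz
      rw [hz, ← ofReal_norm, Real.norm_eq_abs]
    · refine h4.congr fun j => ?_
      congr 1
      ext z
      rw [ofReal_norm]

end Pool.Agent.H57.VG
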