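import Mathlib
import Pool.Agent.H95.VG.Targets2

/-!
# VG module STM: stationary probability measure of the averaging kernel
-/

open MeasureTheory Set Filter Topology
open scoped ENNReal NNReal ContDiff ComplexConjugate CompactlySupported

namespace Pool.Agent.H57.VG

open Pool.Agent.H95.VG

/-- a Markov operator on a compact space has a stationary probability measure -/
theorem exists_stationary {X : Type} [TopologicalSpace X] [T2Space X] [CompactSpace X]
    [Nonempty X] [MeasurableSpace X] [BorelSpace X] (T : (X → ℝ) → X → ℝ)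
    (hc : ∀ g, Continuous g → Continuous (T g))
    (hadd : ∀ g h, Continuous g → Continuous h → T (g + h) = T g + T h)
    (hsmul : ∀ (c : ℝ) g, Continuous g → T (c • g) = c • T g)
    (hone : T (fun _ => 1) = fun _ => 1)
    (hpos : ∀ g, Continuous g → (∀ x, 0 ≤ g x) → ∀ x, 0 ≤ T g x) :
    ∃ ν : Measure X, IsProbabilityMeasure ν ∧ ∀ g : X → ℝ, Continuous g →
      ∫ x, T g x ∂ν = ∫ x, g x ∂ν := by
  obtain ⟨x0⟩ : Nonempty X := inferInstance
  have hneg : ∀ g, Continuous g → T (-g) = - T g := fun g hg => by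
    have := hsmul (-1) g hg
    simpa using this
  have hconst : ∀ c : ℝ, T (fun _ => c) = fun _ => c := fun c => by
    have := hsmul c (fun _ => 1) continuous_const
    rw [hone] at this
    simpa [Pi.smul_def] using this
  have hmono : ∀ g h, Continuous g → Continuous h → (∀ x, g x ≤ h x) → ∀ x, T g x ≤ T h x := by
    intro g h hg hh hgh x
    have h1 := hpos (h + -g) (hh.add hg.neg) (fun x => by simpa using hgh x) x
    rw [hadd _ _ hh hg.neg, hneg _ hg] at h1
    simpa using h1
  have itc : ∀ g, Continuous g → ∀ k, Continuous (T^[k] g) := by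
    intro g hg k
    induction k with
    | zero => simpa using hg
    | succ k ih => rw [Function.iterate_succ_apply']; exact hc _ ih
  have itadd : ∀ g h, Continuous g → Continuous h → ∀ k, T^[k] (g + h) = T^[k] g + T^[k] h := by
    intro g h hg hh k
    induction k with
    | zero => simp
    | succ k ih =>
      rw [Function.iterate_succ_apply', Function.iterate_succ_apply',
        Function.iterate_succ_apply', ih, hadd _ _ (itc g hg k) (itc h hh k)]
  have itsmul : ∀ (c : ℝ) g, Continuous g → ∀ k, T^[k] (c • g) = c • T^[k] g := by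
    intro c g hg k
    induction k with
    | zero => simp
    | succ k ih =>
      rw [Function.iterate_succ_apply', Function.iterate_succ_apply', ih, hsmul _ _ (itc g hg k)]
  have itmono : ∀ g h, Continuous g → Continuous h → (∀ x, g x ≤ h x) → ∀ k x,
      T^[k] g x ≤ T^[k] h x := by
    intro g h hg hh hgh k
    induction k with
    | zero => simpa using hgh
    | succ k ih =>
      intro x
      rw [Function.iterate_succ_apply', Function.iterate_succ_apply']
      exact hmono _ _ (itc g hg k) (itc h hh k) ih x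
  have itconst : ∀ (c : ℝ) k, T^[k] (fun _ => c) = fun _ => c := by
    intro c k
    induction k with
    | zero => simp
    | succ k ih => rw [Function.iterate_succ_apply', ih, hconst]
  have itbd : ∀ g, Continuous g → ∀ M : ℝ, (∀ x, |g x| ≤ M) → ∀ k x, |T^[k] g x| ≤ M := by
    intro g hg M hM k x
    rw [abs_le]
    constructor
    · have := itmono (fun _ => -M) g continuous_const hg (fun x => (abs_le.1 (hM x)).1) k x
      rwa [itconst] at this
    · have := itmono g (fun _ => M) hg continuous_const (fun x => (abs_le.1 (hM x)).2) k x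
      rwa [itconst] at this
  -- averages
  set Av : ℕ → (X → ℝ) → ℝ := fun N g => (∑ k ∈ Finset.range (N + 1), T^[k] g x0) / (N + 1)
    with hAv
  have avbd : ∀ g, Continuous g → ∀ M : ℝ, (∀ x, |g x| ≤ M) → ∀ N, |Av N g| ≤ M := by
    intro g hg M hM N
    simp only [hAv]
    rw [abs_div, abs_of_pos (by positivity : (0 : ℝ) < (N : ℝ) + 1), div_le_iff₀ (by positivity)]
    calc |∑ k ∈ Finset.range (N + 1), T^[k] g x0|
        ≤ ∑ k ∈ Finset.range (N + 1), |T^[k] g x0| := Finset.abs_sum_le_sum_abs _ _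
      _ ≤ ∑ k ∈ Finset.range (N + 1), M := Finset.sum_le_sum fun k _ => itbd g hg M hM k x0
      _ = M * ((N : ℝ) + 1) := by
        rw [Finset.sum_const, Finset.card_range, nsmul_eq_mul]; push_cast; ring
  set f : Ultrafilter ℕ := hyperfilter ℕ with hf
  have L (g : C_c(X, ℝ)) : ∃ y ∈ Icc (-‖g.toBoundedContinuousFunction‖)
      ‖g.toBoundedContinuousFunction‖, Tendsto (fun N => Av N g) f (𝓝 y) := by
    simp only [Tendsto, ← Ultrafilter.coe_map]
    apply IsCompact.ultrafilter_le_nhds' isCompact_Icc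
    simp only [Ultrafilter.mem_map]
    filter_upwards [] with N
    have := avbd g g.continuous ‖g.toBoundedContinuousFunction‖
      (fun x => g.toBoundedContinuousFunction.norm_coe_le_norm x) N
    exact abs_le.1 this
  choose Λ h₀Λ hΛ using L
  have avadd : ∀ g h, Continuous g → Continuous h → ∀ N, Av N (g + h) = Av N g + Av N h := by
    intro g h hg hh N
    simp only [hAv, itadd g h hg hh, Pi.add_apply, Finset.sum_add_distrib]
    ring
  have avsmul : ∀ (c : ℝ) g, Continuous g → ∀ N, Av N (c • g) = c * Av N g := by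
    intro c g hg N
    simp only [hAv, itsmul c g hg, Pi.smul_apply, smul_eq_mul, ← Finset.mul_sum]
    ring
  have avmono : ∀ g h, Continuous g → Continuous h → (∀ x, g x ≤ h x) → ∀ N,
      Av N g ≤ Av N h := by
    intro g h hg hh hgh N
    simp only [hAv]
    gcongr with k hk
    exact itmono g h hg hh hgh k x0
  let Λ' : C_c(X, ℝ) →ₚ[ℝ] ℝ :=
  { toFun := Λ
    map_add' g g' := by
      have h1 : Tendsto (fun N => Av N (g + g')) f (𝓝 (Λ g + Λ g')) := by
        simp_rw [avadd g g' g.continuous g'.continuous]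
        exact (hΛ g).add (hΛ g')
      exact tendsto_nhds_unique (hΛ (g + g')) h1
    map_smul' c g := by
      have h1 : Tendsto (fun N => Av N (c • g)) f (𝓝 (c * Λ g)) := by
        simp_rw [avsmul c g g.continuous]
        exact (hΛ g).const_mul c
      exact tendsto_nhds_unique (hΛ (c • g)) h1
    monotone' g g' hgg' := by
      exact le_of_tendsto_of_tendsto' (hΛ g) (hΛ g')
        (fun N => avmono g g' g.continuous g'.continuous hgg' N) }
  let ν := RealRMK.rieszMeasure Λ'
  have hν : ∀ g : C_c(X, ℝ), ∫ x, g x ∂ν = Λ g := fun g => RealRMK.integral_rieszMeasure Λ' g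
  let o : C_c(X, ℝ) :=
    { toFun := fun _ => 1
      hasCompactSupport' := HasCompactSupport.of_compactSpace _ }
  have hfin : IsFiniteMeasure ν := inferInstance
  have ho : Λ o = 1 := by
    have h1 : Tendsto (fun N => Av N o) f (𝓝 1) := by
      have : ∀ N, Av N o = 1 := by
        intro N
        have h2 : (o : X → ℝ) = fun _ => 1 := rfl
        simp only [hAv, h2, itconst]
        rw [Finset.sum_const, Finset.card_range, nsmul_eq_mul]
        push_cast
        field_simp
      simp_rw [this]
      exact tendsto_const_nhds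
    exact tendsto_nhds_unique (hΛ o) h1
  refine ⟨ν, ⟨?_⟩, ?_⟩
  · have h1 := hν o
    rw [ho] at h1
    have h2 : ∫ x, (o x : ℝ) ∂ν = ν.real univ := by
      change ∫ _ : X, (1 : ℝ) ∂ν = _
      simp
    rw [h2] at h1
    have h3 := ENNReal.ofReal_toReal (measure_ne_top ν univ)
    rw [← h3]
    change ENNReal.ofReal (ν.real univ) = 1
    rw [h1]; simp
  · intro g hg
    let g1 : C_c(X, ℝ) :=
      { toFun := g
        hasCompactSupport' := HasCompactSupport.of_compactSpace _ }
    let g2 : C_c(X, ℝ) :=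
      { toFun := T g
        continuous_toFun := hc g hg
        hasCompactSupport' := HasCompactSupport.of_compactSpace _ }
    have e1 : ∫ x, g x ∂ν = Λ g1 := hν g1
    have e2 : ∫ x, T g x ∂ν = Λ g2 := hν g2
    rw [e1, e2]
    have h1 : Tendsto (fun N => Av N (T g) - Av N g) f (𝓝 (Λ g2 - Λ g1)) := (hΛ g2).sub (hΛ g1)
    have h2 : Tendsto (fun N => Av N (T g) - Av N g) f (𝓝 0) := by
      set M := ‖g1.toBoundedContinuousFunction‖
      have hM : ∀ x, |g x| ≤ M := fun x => g1.toBoundedContinuousFunction.norm_coe_le_norm x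
      have h3 : ∀ N : ℕ, |Av N (T g) - Av N g| ≤ 2 * M / ((N : ℝ) + 1) := by
        intro N
        have h4 : Av N (T g) - Av N g = (T^[N + 1] g x0 - g x0) / (N + 1) := by
          simp only [hAv]
          rw [← sub_div]
          congr 1
          rw [← Finset.sum_sub_distrib]
          have : ∀ k, T^[k] (T g) x0 - T^[k] g x0 = T^[k + 1] g x0 - T^[k] g x0 := by
            intro k
            rw [Function.iterate_succ_apply]
          simp_rw [this]
          rw [Finset.sum_range_sub (fun k => T^[k] g x0)]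
          simp
        rw [h4, abs_div, abs_of_pos (by positivity : (0 : ℝ) < (N : ℝ) + 1)]
        gcongr
        calc |T^[N + 1] g x0 - g x0| ≤ |T^[N + 1] g x0| + |g x0| := abs_sub _ _
          _ ≤ M + M := add_le_add (itbd g hg M hM _ _) (hM x0)
          _ = 2 * M := by ring
      have h5 : Tendsto (fun N : ℕ => 2 * M / ((N : ℝ) + 1)) atTop (𝓝 0) := by
        have := tendsto_one_div_add_atTop_nhds_zero_nat (𝕜 := ℝ)
        have h6 := this.const_mul (2 * M)
        simp only [mul_zero] at h6
        refine h6.congr fun N => by ring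
      have h7 : Tendsto (fun N : ℕ => 2 * M / ((N : ℝ) + 1)) f (𝓝 0) :=
        h5.mono_left Nat.hyperfilter_le_atTop
      exact squeeze_zero_norm h3 h7
    have := tendsto_nhds_unique h1 h2
    linarith

section

variable {n : ℕ} {X : Type} [TopologicalSpace X] {ι : Type} [Fintype ι]

lemma norm_sq_le_nsq (y : V n) : ‖y‖ ^ 2 ≤ nsq y := by
  have h : ‖y‖ ≤ √(nsq y) := by
    rw [pi_norm_le_iff_of_nonneg (Real.sqrt_nonneg _)]
    intro i
    apply Real.le_sqrt_of_sq_le
    exact Finset.single_le_sum (f := fun i => ‖y i‖ ^ 2) (fun j _ => by positivity)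
      (Finset.mem_univ i)
  have h0 : 0 ≤ nsq y := Finset.sum_nonneg fun i _ => by positivity
  calc ‖y‖ ^ 2 ≤ √(nsq y) ^ 2 := by gcongr
    _ = nsq y := Real.sq_sqrt h0

lemma ker_zero {κ Kp : V n → ℝ} (hK : Ker n κ Kp) {y : V n} (hy : 1 ≤ ‖y‖) : κ y = 0 := by
  apply (hK.zero y _).1
  have := norm_sq_le_nsq y
  nlinarith

lemma ker_nonneg {κ Kp : V n → ℝ} (hK : Ker n κ Kp) (y : V n) : 0 ≤ κ y := by
  by_cases h : nsq y < 1
  · exact (hK.pos y h).1.le
  · rw [(hK.zero y (not_lt.1 h)).1]

lemma ker_integrable {κ Kp : V n → ℝ} (hK : Ker n κ Kp) : Integrable κ := by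
  by_contra h
  have := hK.one
  rw [integral_undef h] at this
  exact zero_ne_one this

/-- the integrand of the averaging operator is jointly continuous -/
lemma cont_integrand (A : Atl n X ι) {κ Kp : V n → ℝ} (hK : Ker n κ Kp) (a : ι)
    {g : X → ℝ} (hg : Continuous g) {s : Set X}
    (hs : s ⊆ (A.φ a).source ∩ (A.φ a) ⁻¹' (Metric.ball (0 : V n) (3 / 2))) :
    ContinuousOn (Function.uncurry fun (x : X) (ζ : V n) =>
      κ ζ * g ((A.φ a).symm (A.φ a x + (1 / 4 : ℝ) • ζ))) (s ×ˢ univ) := by
  rintro ⟨x, ζ⟩ ⟨hx, -⟩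
  obtain ⟨hx1, hx2⟩ := hs hx
  have hφ : ContinuousAt (fun p : X × V n => A.φ a p.1 + (1 / 4 : ℝ) • p.2) (x, ζ) := by
    have h1 : ContinuousAt (A.φ a) x := (A.φ a).continuousAt hx1
    have h2 : ContinuousAt (fun p : X × V n => A.φ a p.1) (x, ζ) :=
      ContinuousAt.comp (f := Prod.fst) (x := (x, ζ)) h1 continuous_fst.continuousAt
    have h3 : Continuous fun p : X × V n => (1 / 4 : ℝ) • p.2 := by fun_prop
    exact h2.add h3.continuousAt
  by_cases hζ : ‖ζ‖ < 2
  · apply ContinuousAt.continuousWithinAt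
    have hmem : A.φ a x + (1 / 4 : ℝ) • ζ ∈ (A.φ a).target := by
      apply A.ball a
      rw [mem_closedBall_zero_iff]
      have h3 : ‖A.φ a x‖ < 3 / 2 := by simpa using hx2
      calc ‖A.φ a x + (1 / 4 : ℝ) • ζ‖ ≤ ‖A.φ a x‖ + ‖(1 / 4 : ℝ) • ζ‖ := norm_add_le _ _
        _ = ‖A.φ a x‖ + 1 / 4 * ‖ζ‖ := by rw [norm_smul]; norm_num
        _ ≤ 3 := by linarith
    have h4 : ContinuousAt (A.φ a).symm (A.φ a x + (1 / 4 : ℝ) • ζ) :=
      (A.φ a).continuousAt_symm hmem
    have h5 : ContinuousAt (fun p : X × V n =>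
        g ((A.φ a).symm (A.φ a p.1 + (1 / 4 : ℝ) • p.2))) (x, ζ) :=
      hg.continuousAt.comp (ContinuousAt.comp (g := (A.φ a).symm)
        (f := fun p : X × V n => A.φ a p.1 + (1 / 4 : ℝ) • p.2) (x := (x, ζ)) h4 hφ)
    exact ((hK.smooth.1.continuous.comp continuous_snd).continuousAt).mul h5
  · apply ContinuousAt.continuousWithinAt
    have h6 : ∀ᶠ p : X × V n in 𝓝 (x, ζ), 1 < ‖p.2‖ := by
      apply (continuous_snd.norm).continuousAt.eventually (lt_mem_nhds _)
      simpa using lt_of_lt_of_le (by norm_num : (1 : ℝ) < 2) (not_lt.1 hζ)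
    have h7 : (Function.uncurry fun (x : X) (ζ : V n) =>
      κ ζ * g ((A.φ a).symm (A.φ a x + (1 / 4 : ℝ) • ζ))) =ᶠ[𝓝 (x, ζ)] fun _ => 0 := by
      filter_upwards [h6] with p hp
      simp [Function.uncurry, ker_zero hK hp.le]
    exact continuousAt_const.congr h7.symm

lemma cont_integrand' (A : Atl n X ι) {κ Kp : V n → ℝ} (hK : Ker n κ Kp) (a : ι)
    {g : X → ℝ} (hg : Continuous g) {x : X} (hx1 : x ∈ (A.φ a).source)
    (hx2 : A.φ a x ∈ Metric.ball (0 : V n) (3 / 2)) :
    Continuous fun ζ : V n => κ ζ * g ((A.φ a).symm (A.φ a x + (1 / 4 : ℝ) • ζ)) := by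
  have h := cont_integrand A hK a hg (s := {x}) (by
    rintro y rfl
    exact ⟨hx1, hx2⟩)
  have h2 : Continuous fun ζ : V n => ((x, ζ) : X × V n) := by fun_prop
  rw [← continuousOn_univ] at h2 ⊢
  exact h.comp h2 (fun ζ _ => by simp)

lemma integrand_integrable (A : Atl n X ι) {κ Kp : V n → ℝ} (hK : Ker n κ Kp) (a : ι)
    {g : X → ℝ} (hg : Continuous g) {x : X} (hx1 : x ∈ (A.φ a).source)
    (hx2 : A.φ a x ∈ Metric.ball (0 : V n) (3 / 2)) :
    Integrable fun ζ : V n => κ ζ * g ((A.φ a).symm (A.φ a x + (1 / 4 : ℝ) • ζ)) := by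
  apply (cont_integrand' A hK a hg hx1 hx2).integrable_of_hasCompactSupport
  apply HasCompactSupport.intro (isCompact_closedBall (0 : V n) 1)
  intro ζ hζ
  rw [mem_closedBall_zero_iff, not_le] at hζ
  rw [ker_zero hK hζ.le, zero_mul]

lemma sub_ball {ρ : ι → X → ℝ} {A : Atl n X ι} (hρ : PU A ρ) {a : ι} {x : X} (h : ρ a x ≠ 0) :
    x ∈ (A.φ a).source ∧ A.φ a x ∈ Metric.ball (0 : V n) (3 / 2) := by
  obtain ⟨h1, h2⟩ := hρ.supp a x h
  refine ⟨h1, ?_⟩
  rw [mem_closedBall_zero_iff] at h2
  rw [mem_ball_zero_iff]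
  linarith

/-- continuity of the averages -/
lemma stp_continuous [T2Space X] [CompactSpace X] (A : Atl n X ι) {ρ : ι → X → ℝ}
    {κ Kp : V n → ℝ} (hρ : PU A ρ) (hK : Ker n κ Kp) {g : X → ℝ} (hg : Continuous g) :
    Continuous (stp A ρ κ g) := by
  unfold stp
  apply continuous_finsetSum
  intro a _
  rw [continuous_iff_continuousAt]
  intro x
  set U : Set X := (A.φ a).source ∩ (A.φ a) ⁻¹' (Metric.ball (0 : V n) (3 / 2)) with hU
  have hUo : IsOpen U := (A.φ a).isOpen_inter_preimage Metric.isOpen_ball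
  by_cases hx : x ∈ U
  · have h1 : ContinuousOn (fun x => ∫ ζ, κ ζ * g ((A.φ a).symm (A.φ a x + (1 / 4 : ℝ) • ζ))) U := by
      apply continuousOn_integral_of_compact_support (isCompact_closedBall (0 : V n) 1)
        (cont_integrand A hK a hg subset_rfl)
      intro x ζ _ hζ
      rw [mem_closedBall_zero_iff, not_le] at hζ
      rw [ker_zero hK hζ.le, zero_mul]
    exact (hρ.cont a).continuousAt.mul (h1.continuousAt (hUo.mem_nhds hx))
  · set C : Set X := (A.φ a).symm '' (Metric.closedBall (0 : V n) (5 / 4)) with hC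
    have hCc : IsCompact C := by
      apply (isCompact_closedBall (0 : V n) (5 / 4)).image_of_continuousOn
      apply (A.φ a).continuousOn_symm.mono
      exact (Metric.closedBall_subset_closedBall (by norm_num)).trans (A.ball a)
    have hxC : x ∉ C := by
      rintro ⟨y, hy, rfl⟩
      apply hx
      have hy' : y ∈ (A.φ a).target :=
        A.ball a (Metric.closedBall_subset_closedBall (by norm_num) hy)
      refine ⟨(A.φ a).map_target hy', ?_⟩
      rw [mem_preimage, (A.φ a).right_inv hy', mem_ball_zero_iff]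
      rw [mem_closedBall_zero_iff] at hy
      linarith
    have h0 : ∀ y ∉ C, ρ a y = 0 := by
      intro y hy
      by_contra hne
      obtain ⟨h1, h2⟩ := hρ.supp a y hne
      exact hy ⟨A.φ a y, h2, (A.φ a).left_inv h1⟩
    have h2 : (fun x => ρ a x * ∫ ζ, κ ζ * g ((A.φ a).symm (A.φ a x + (1 / 4 : ℝ) • ζ)))
        =ᶠ[𝓝 x] fun _ => 0 := by
      filter_upwards [hCc.isClosed.isOpen_compl.mem_nhds hxC] with y hy
      rw [h0 y hy, zero_mul]
    exact continuousAt_const.congr h2.symm

end

/-- module STM -/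
theorem stm : T_STM := by
  intro n X _ _ _ _ _ _ ι _ A ρ κ Kp hρ hK
  refine ⟨fun g hg => stp_continuous A hρ hK hg, ?_⟩
  apply exists_stationary (stp A ρ κ) (fun g hg => stp_continuous A hρ hK hg)
  · intro g h hg hh
    ext x
    simp only [stp, Pi.add_apply, ← Finset.sum_add_distrib]
    apply Finset.sum_congr rfl
    intro a _
    by_cases h0 : ρ a x = 0
    · simp [h0]
    · obtain ⟨h1, h2⟩ := sub_ball hρ h0
      rw [← mul_add, ← integral_add (integrand_integrable A hK a hg h1 h2)
        (integrand_integrable A hK a hh h1 h2)]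
      congr 1
      apply integral_congr_ae
      filter_upwards [] with ζ
      ring
  · intro c g hg
    ext x
    simp only [stp, Pi.smul_apply, smul_eq_mul, Finset.mul_sum]
    apply Finset.sum_congr rfl
    intro a _
    have e : (fun ζ : V n => κ ζ * (c * g ((A.φ a).symm (A.φ a x + (1 / 4 : ℝ) • ζ))))
        = fun ζ => c * (κ ζ * g ((A.φ a).symm (A.φ a x + (1 / 4 : ℝ) • ζ))) := by
      funext ζ; ring
    rw [e, integral_const_mul]
    ring
  · ext x
    simp only [stp, mul_one]
    rw [hK.one]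
    simpa using hρ.sum x
  · intro g hg hg0 x
    apply Finset.sum_nonneg
    intro a _
    apply mul_nonneg (hρ.nonneg a x)
    apply integral_nonneg
    intro ζ
    exact mul_nonneg (ker_nonneg hK ζ) (hg0 _)

end Pool.Agent.H57.VG
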