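import Mathlib
import Pool.Agent.H95.VG.Targets2
import Pool.Agent.H95.VG.Targets3
import Pool.Agent.H57.VG.STM

/-!
# VG module WEY: Weyl lemma for positive measures
-/

set_option autoImplicit false

open MeasureTheory Set Filter Topology
open scoped ContDiff ENNReal NNReal

namespace Pool.Agent.H57.VG.Wey

open Pool.Agent.H95.VG

variable {n : ℕ} {m : Measure (V n)} [IsFiniteMeasure m]

/-- convolution with the measure `m` -/
noncomputable def wg (m : Measure (V n)) (g : V n → ℝ) (y : V n) : ℝ := ∫ x, g (y - x) ∂m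

theorem int_shift {g : V n → ℝ} (hg : Continuous g) (hc : HasCompactSupport g) (y : V n) :
    Integrable (fun x => g (y - x)) m := by
  obtain ⟨C, hC⟩ := hg.bounded_above_of_compact_support hc
  exact (integrable_const C).mono' (hg.comp (by fun_prop)).aestronglyMeasurable
    (Eventually.of_forall fun x => hC _)

theorem wg_hasFDerivAt {g : V n → ℝ} (hg : ContDiff ℝ 1 g) (hc : HasCompactSupport g) (y : V n) :
    HasFDerivAt (wg m g) (∫ x, fderiv ℝ g (y - x) ∂m) y := by
  have hfc : Continuous (fderiv ℝ g) := hg.continuous_fderiv (by norm_num)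
  obtain ⟨C, hC⟩ := hfc.bounded_above_of_compact_support (hc.fderiv (𝕜 := ℝ))
  apply hasFDerivAt_integral_of_dominated_of_fderiv_le (F := fun y x => g (y - x))
    (F' := fun y x => fderiv ℝ g (y - x)) (s := univ) (bound := fun _ => C) univ_mem
  · exact Eventually.of_forall fun y =>
      (hg.continuous.comp (by fun_prop)).aestronglyMeasurable
  · exact int_shift hg.continuous hc y
  · exact (hfc.comp (by fun_prop)).aestronglyMeasurable
  · exact Eventually.of_forall fun x z _ => hC _
  · exact integrable_const C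
  · refine Eventually.of_forall fun x z _ => ?_
    have h1 : HasFDerivAt g (fderiv ℝ g (z - x)) (z - x) :=
      ((hg.differentiable (by norm_num)).differentiableAt).hasFDerivAt
    exact h1.comp z ((hasFDerivAt_id z).sub_const x)

theorem wg_fderiv {g : V n → ℝ} (hg : ContDiff ℝ 1 g) (hc : HasCompactSupport g) (y v : V n) :
    fderiv ℝ (wg m g) y v = wg m (fun z => fderiv ℝ g z v) y := by
  rw [(wg_hasFDerivAt hg hc y).fderiv]
  have hfc : Continuous (fderiv ℝ g) := hg.continuous_fderiv (by norm_num)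
  obtain ⟨C, hC⟩ := hfc.bounded_above_of_compact_support (hc.fderiv (𝕜 := ℝ))
  have hI : Integrable (fun x => fderiv ℝ g (y - x)) m :=
    (integrable_const C).mono' (hfc.comp (by fun_prop)).aestronglyMeasurable
      (Eventually.of_forall fun x => hC _)
  rw [ContinuousLinearMap.integral_apply hI]
  rfl

theorem dir_smooth {g : V n → ℝ} (hg : ContDiff ℝ ∞ g) (v : V n) :
    ContDiff ℝ ∞ (fun z => fderiv ℝ g z v) :=
  (hg.fderiv_right (m := ∞) (by simp)).clm_apply contDiff_const

theorem dir_cs {g : V n → ℝ} (hc : HasCompactSupport g) (v : V n) :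
    HasCompactSupport (fun z => fderiv ℝ g z v) := by
  have := hc.fderiv (𝕜 := ℝ)
  exact this.mono (fun y hy => by
    rw [Function.mem_support] at hy ⊢
    intro h
    apply hy
    rw [h]; simp)

theorem wg_lev {g : V n → ℝ} (hg : ContDiff ℝ ∞ g) (hc : HasCompactSupport g) (y v : V n) :
    lev (wg m g) y v = wg m (fun z => lev g z v) y := by
  have h1 : ∀ w, (fun x => fderiv ℝ (wg m g) x w) = wg m (fun z => fderiv ℝ g z w) := by
    intro w
    ext x
    exact wg_fderiv (hg.of_le (by simp)) hc x w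
  have h2 : ∀ w u, fderiv ℝ (wg m (fun z => fderiv ℝ g z w)) y u
      = wg m (fun z => fderiv ℝ (fun z => fderiv ℝ g z w) z u) y := by
    intro w u
    exact wg_fderiv ((dir_smooth hg w).of_le (by simp)) (dir_cs hc w) y u
  unfold lev
  rw [h1, h1, h2, h2]
  unfold wg
  simp only [smul_eq_mul]
  rw [integral_const_mul, integral_add]
  · exact int_shift (dir_smooth (dir_smooth hg v) v).continuous (dir_cs (dir_cs hc v) v) y
  · exact int_shift (dir_smooth (dir_smooth hg _) _).continuous (dir_cs (dir_cs hc _) _) y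

/-- Levi form of a reflected translate -/
theorem lev_shift {g : V n → ℝ} (hg : ContDiff ℝ ∞ g) (y x v : V n) :
    lev (fun x => g (y - x)) x v = lev g (y - x) v := by
  have h0 : ∀ (f : V n → ℝ), ContDiff ℝ ∞ f → ∀ x w, fderiv ℝ (fun x => f (y - x)) x w
      = - fderiv ℝ f (y - x) w := by
    intro f hf x w
    have h1 : HasFDerivAt (fun t : V n => y - t) (-(ContinuousLinearMap.id ℝ (V n))) x := by
      have := (hasFDerivAt_id (𝕜 := ℝ) x).const_sub y
      simpa using this
    have h2 : HasFDerivAt f (fderiv ℝ f (y - x)) (y - x) :=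
      ((hf.differentiable (by simp)).differentiableAt).hasFDerivAt
    have h3 : fderiv ℝ (fun x => f (y - x)) x
        = (fderiv ℝ f (y - x)).comp (-(ContinuousLinearMap.id ℝ (V n))) := (h2.comp x h1).fderiv
    rw [h3]
    simp
  have h4 : ∀ w, (fun x => fderiv ℝ (fun x => g (y - x)) x w)
      = fun x => - (fun z => fderiv ℝ g z w) (y - x) := by
    intro w
    ext x
    exact h0 g hg x w
  have h5 : ∀ w u, fderiv ℝ (fun x => fderiv ℝ (fun x => g (y - x)) x w) x u
      = fderiv ℝ (fun z => fderiv ℝ g z w) (y - x) u := by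
    intro w u
    rw [h4 w, fderiv_fun_neg]
    have := h0 (fun z => fderiv ℝ g z w) (dir_smooth hg w) x u
    rw [neg_apply, this]
    simp
  unfold lev
  rw [h5, h5]

/-- the weak equation for the convolutions -/
theorem sum_lev_wg (hm : ∀ p : V n → ℝ, ContDiff ℝ ∞ p → HasCompactSupport p →
    tsupport p ⊆ Metric.ball (0 : V n) (3 / 2) → ∫ y, ∑ k, lev p y (ek k) ∂m = 0)
    {g : V n → ℝ} (hg : ContDiff ℝ ∞ g) {r : ℝ} (hgr : ∀ z, r < ‖z‖ → g z = 0) {y : V n}
    (hy : ‖y‖ + r < 3 / 2) : ∑ k, lev (wg m g) y (ek k) = 0 := by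
  have hc : HasCompactSupport g := HasCompactSupport.intro (isCompact_closedBall (0 : V n) r)
    (fun z hz => hgr z (by rwa [mem_closedBall_zero_iff, not_le] at hz))
  set p : V n → ℝ := fun x => g (y - x) with hp
  have hps : ContDiff ℝ ∞ p := hg.comp (contDiff_const.sub contDiff_id)
  have hp0 : ∀ x ∉ Metric.closedBall y r, p x = 0 := by
    intro x hx
    rw [mem_closedBall_iff_norm, norm_sub_rev, not_le] at hx
    exact hgr _ hx
  have hpc : HasCompactSupport p := HasCompactSupport.intro (isCompact_closedBall y r) hp0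
  have hts : tsupport p ⊆ Metric.ball (0 : V n) (3 / 2) := by
    have h1 : tsupport p ⊆ Metric.closedBall y r := by
      apply closure_minimal _ Metric.isClosed_closedBall
      intro x hx
      by_contra h
      exact hx (hp0 x h)
    refine h1.trans fun x hx => ?_
    rw [mem_closedBall_iff_norm] at hx
    rw [mem_ball_zero_iff]
    calc ‖x‖ = ‖(x - y) + y‖ := by rw [sub_add_cancel]
      _ ≤ ‖x - y‖ + ‖y‖ := norm_add_le _ _
      _ < 3 / 2 := by linarith
  have h2 := hm p hps hpc hts
  simp only [wg_lev hg hc]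
  unfold wg
  rw [← integral_finsetSum]
  · rw [← h2]
    congr 1
    ext x
    apply Finset.sum_congr rfl
    intro k _
    rw [hp, lev_shift hg]
  · intro k _
    have h3 : Continuous fun z => lev g z (ek k) := by
      have h5 : Continuous fun z => fderiv ℝ (fun x => fderiv ℝ g x (ek k)) z (ek k)
          + fderiv ℝ (fun x => fderiv ℝ g x (Complex.I • ek k)) z (Complex.I • ek k) :=
        (dir_smooth (dir_smooth hg _) _).continuous.add
          (dir_smooth (dir_smooth hg _) _).continuous
      exact continuous_const.mul h5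
    have h4 : HasCompactSupport fun z => lev g z (ek k) := by
      have h5 : HasCompactSupport fun z => fderiv ℝ (fun x => fderiv ℝ g x (ek k)) z (ek k)
          + fderiv ℝ (fun x => fderiv ℝ g x (Complex.I • ek k)) z (Complex.I • ek k) :=
        (dir_cs (dir_cs hc _) _).add (dir_cs (dir_cs hc _) _)
      refine h5.mono fun z hz => ?_
      rw [Function.mem_support] at hz ⊢
      intro h
      apply hz
      unfold lev
      rw [h, smul_zero]
    exact int_shift h3 h4 y


theorem wg_contDiff {g : V n → ℝ} (hg : ContDiff ℝ ∞ g) (hc : HasCompactSupport g) :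
    ContDiff ℝ ∞ (wg m g) := by
  have h1 : LocallyIntegrable (fun _ : V n => (1 : ℝ)) m := (integrable_const 1).locallyIntegrable
  have h2 := hc.contDiff_convolution_right (n := ⊤) (ContinuousLinearMap.lsmul ℝ ℝ) (μ := m) h1
    (by simpa using hg)
  have h3 : wg m g = (convolution (fun _ : V n => (1 : ℝ)) g (ContinuousLinearMap.lsmul ℝ ℝ) m) := by
    ext y
    unfold wg convolution
    simp
  rw [h3]
  simpa using h2

/-! ### The rescaled kernels -/

/-- rescaled kernel -/
noncomputable def gr (κ : V n → ℝ) (r : ℝ) (z : V n) : ℝ :=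
  (r ^ Module.finrank ℝ (V n))⁻¹ * κ (r⁻¹ • z)

theorem gr_smooth {κ Kp : V n → ℝ} (hK : Ker n κ Kp) (r : ℝ) : ContDiff ℝ ∞ (gr κ r) :=
  contDiff_const.mul (hK.smooth.1.comp (contDiff_const_smul _))

theorem gr_zero {κ Kp : V n → ℝ} (hK : Ker n κ Kp) {r : ℝ} (hr : 0 < r) (z : V n)
    (hz : r < ‖z‖) : gr κ r z = 0 := by
  unfold gr
  rw [ker_zero hK, mul_zero]
  rw [norm_smul, norm_inv, Real.norm_eq_abs, abs_of_pos hr, ← div_eq_inv_mul, one_le_div hr]
  exact hz.le

theorem gr_cs {κ Kp : V n → ℝ} (hK : Ker n κ Kp) {r : ℝ} (hr : 0 < r) :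
    HasCompactSupport (gr κ r) :=
  HasCompactSupport.intro (isCompact_closedBall (0 : V n) r)
    (fun z hz => gr_zero hK hr z (by rwa [mem_closedBall_zero_iff, not_le] at hz))

theorem gr_nonneg {κ Kp : V n → ℝ} (hK : Ker n κ Kp) {r : ℝ} (hr : 0 < r) (z : V n) :
    0 ≤ gr κ r z := mul_nonneg (by positivity) (ker_nonneg hK _)

theorem gr_neg {κ Kp : V n → ℝ} (hK : Ker n κ Kp) (r : ℝ) (z : V n) : gr κ r (-z) = gr κ r z := by
  unfold gr
  have h := (hK.rot (-1) (r⁻¹ • z) (by simp)).1
  rw [smul_neg, ← h]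
  simp

theorem ker_cs {κ Kp : V n → ℝ} (hK : Ker n κ Kp) : HasCompactSupport κ :=
  HasCompactSupport.intro (isCompact_closedBall (0 : V n) 1)
    (fun z hz => ker_zero hK (by rw [mem_closedBall_zero_iff, not_le] at hz; exact hz.le))

theorem A_eq {κ : V n → ℝ} {s : ℝ} (hs : 0 < s) (f : V n → ℝ) (z : V n) :
    ∫ ζ, κ ζ * f (z + s • ζ) = ∫ u, gr κ s u * f (z + u) := by
  have h1 := Measure.integral_comp_smul (volume : Measure (V n))
    (fun u => gr κ s u * f (z + u)) s
  have h2 : ∀ ζ : V n, gr κ s (s • ζ) * f (z + s • ζ)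
      = (s ^ Module.finrank ℝ (V n))⁻¹ * (κ ζ * f (z + s • ζ)) := by
    intro ζ
    unfold gr
    rw [inv_smul_smul₀ hs.ne']
    ring
  simp only [h2] at h1
  rw [integral_const_mul, abs_of_pos (by positivity), smul_eq_mul] at h1
  have h3 : (s ^ Module.finrank ℝ (V n))⁻¹ ≠ 0 := by positivity
  exact mul_left_cancel₀ h3 h1

theorem A_symm {κ Kp : V n → ℝ} (hK : Ker n κ Kp) {r s : ℝ} (hr : 0 < r) (hs : 0 < s) (z : V n) :
    ∫ ζ, κ ζ * gr κ r (z + s • ζ) = ∫ ζ, κ ζ * gr κ s (z + r • ζ) := by
  rw [A_eq hs, A_eq hr]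
  rw [← integral_neg_eq_self (fun u => gr κ s u * gr κ r (z + u))]
  rw [← integral_sub_right_eq_self (fun u => gr κ r u * gr κ s (z + u)) z]
  congr 1
  ext u
  rw [gr_neg hK, show z + -u = -(u - z) by abel, gr_neg hK, show z + (u - z) = u by abel]
  ring

theorem cont_bdd_cs {f : V n → ℝ} (hf : Continuous f) {κ Kp : V n → ℝ} (hK : Ker n κ Kp) :
    Integrable (fun ζ => κ ζ * f ζ) :=
  (hK.smooth.1.continuous.mul hf).integrable_of_hasCompactSupport ((ker_cs hK).mul_right)

/-- Fubini -/
theorem wg_avg {κ Kp : V n → ℝ} (hK : Ker n κ Kp) {g : V n → ℝ} (hg : Continuous g)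
    (hc : HasCompactSupport g) (y : V n) (s : ℝ) :
    ∫ ζ, κ ζ * wg m g (y + s • ζ) = ∫ x, (∫ ζ, κ ζ * g (y - x + s • ζ)) ∂m := by
  obtain ⟨C, hC⟩ := hg.bounded_above_of_compact_support hc
  have h1 : ∀ ζ, κ ζ * wg m g (y + s • ζ) = ∫ x, κ ζ * g (y - x + s • ζ) ∂m := by
    intro ζ
    unfold wg
    rw [integral_const_mul]
    congr 2
    ext x
    congr 1
    abel
  simp only [h1]
  rw [integral_integral_swap]
  have h2 : Integrable (fun p : V n × V n => κ p.1 * (fun _ : V n => C) p.2)
      ((volume : Measure (V n)).prod m) := (ker_integrable hK).mul_prod (integrable_const C)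
  refine h2.mono ?_ ?_
  · have h3 : Continuous (Function.uncurry fun ζ x => κ ζ * g (y - x + s • ζ)) := by
      have := hK.smooth.1.continuous
      unfold Function.uncurry
      fun_prop
    exact h3.aestronglyMeasurable
  · refine Eventually.of_forall fun p => ?_
    unfold Function.uncurry
    simp only [norm_mul]
    gcongr
    exact (hC _).trans (Real.le_norm_self _)

/-- the hypothesis of Weyl's lemma -/
def Har (m : Measure (V n)) : Prop := ∀ p : V n → ℝ, ContDiff ℝ ∞ p → HasCompactSupport p →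
    tsupport p ⊆ Metric.ball (0 : V n) (3 / 2) → ∫ y, ∑ k, lev p y (ek k) ∂m = 0

/-- mean value property -/
theorem mean_value {κ Kp : V n → ℝ} (hK : Ker n κ Kp) (hm : Har m) {r s : ℝ} (hr : 0 < r)
    (hs : 0 ≤ s) {y : V n} (hy : ‖y‖ + r + s < 3 / 2) :
    ∫ ζ, κ ζ * wg m (gr κ r) (y + s • ζ) = wg m (gr κ r) y := by
  have hw : ContDiff ℝ ∞ (wg m (gr κ r)) := wg_contDiff (gr_smooth hK r) (gr_cs hK hr)
  have h1 := hK.rep (wg m (gr κ r)) y 0 s (Metric.ball 0 (3 / 2 - r)) Metric.isOpen_ball le_rfl hs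
    (by
      intro x hx
      rw [mem_closedBall_iff_norm] at hx
      rw [mem_ball_zero_iff]
      calc ‖x‖ = ‖(x - y) + y‖ := by rw [sub_add_cancel]
        _ ≤ ‖x - y‖ + ‖y‖ := norm_add_le _ _
        _ < 3 / 2 - r := by linarith)
    ((hw.of_le (WithTop.coe_le_coe.2 le_top)).contDiffOn)
  have h2 : ∫ t in (0 : ℝ)..s, t * ∫ ζ, Kp ζ * ∑ k, lev (wg m (gr κ r)) (y + t • ζ) (ek k)
      = ∫ t in (0 : ℝ)..s, (0 : ℝ) := by
    apply intervalIntegral.integral_congr
    intro t ht
    rw [uIcc_of_le hs] at ht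
    have h3 : ∀ ζ : V n, Kp ζ * ∑ k, lev (wg m (gr κ r)) (y + t • ζ) (ek k) = 0 := by
      intro ζ
      by_cases hζ : 1 ≤ ‖ζ‖
      · rw [(hK.zero ζ (by have := norm_sq_le_nsq ζ; nlinarith)).2, zero_mul]
      · rw [sum_lev_wg hm (gr_smooth hK r) (gr_zero hK hr), mul_zero]
        rw [not_le] at hζ
        have h4 : ‖y + t • ζ‖ ≤ ‖y‖ + s := by
          calc ‖y + t • ζ‖ ≤ ‖y‖ + ‖t • ζ‖ := norm_add_le _ _
            _ = ‖y‖ + t * ‖ζ‖ := by rw [norm_smul, Real.norm_eq_abs, abs_of_nonneg ht.1]
            _ ≤ ‖y‖ + s * 1 := by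
              have := ht.1; have := ht.2
              gcongr
            _ = ‖y‖ + s := by ring
        linarith
    simp only [h3]
    simp
  rw [h2, intervalIntegral.integral_zero, mul_zero] at h1
  have h5 : ∀ ζ : V n, κ ζ * (wg m (gr κ r) (y + s • ζ) - wg m (gr κ r) (y + (0 : ℝ) • ζ))
      = κ ζ * wg m (gr κ r) (y + s • ζ) - κ ζ * wg m (gr κ r) y := by
    intro ζ
    rw [zero_smul, add_zero]
    ring
  simp only [h5] at h1
  rw [integral_sub, integral_mul_const, hK.one, one_mul] at h1
  · linarith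
  · apply cont_bdd_cs (f := fun ζ => wg m (gr κ r) (y + s • ζ)) _ hK
    exact hw.continuous.comp (by fun_prop)
  · exact (ker_integrable hK).mul_const _

/-- independence of the radius -/
theorem indep {κ Kp : V n → ℝ} (hK : Ker n κ Kp) (hm : Har m) {r s : ℝ} (hr : 0 < r)
    (hs : 0 < s) {y : V n} (hy : ‖y‖ + r + s < 3 / 2) :
    wg m (gr κ r) y = wg m (gr κ s) y := by
  rw [← mean_value hK hm hr hs.le hy, ← mean_value hK hm hs hr.le (by linarith : ‖y‖ + s + r < 3 / 2),
    wg_avg hK (gr_smooth hK r).continuous (gr_cs hK hr),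
    wg_avg hK (gr_smooth hK s).continuous (gr_cs hK hs)]
  congr 1
  ext x
  exact A_symm hK hr hs (y - x)

/-- the density -/
noncomputable def bd (m : Measure (V n)) (κ : V n → ℝ) (y : V n) : ℝ :=
  wg m (gr κ ((3 / 2 - ‖y‖) / 3)) y

theorem bd_eq {κ Kp : V n → ℝ} (hK : Ker n κ Kp) (hm : Har m) {r : ℝ} (hr : 0 < r) {y : V n}
    (hy : r < 2 / 3 * (3 / 2 - ‖y‖)) : bd m κ y = wg m (gr κ r) y := by
  unfold bd
  apply indep hK hm _ hr
  · linarith
  · linarith

theorem bd_ev {κ Kp : V n → ℝ} (hK : Ker n κ Kp) (hm : Har m) {y₀ : V n} {r : ℝ} (hr : 0 < r)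
    (hy : r < 2 / 3 * (3 / 2 - ‖y₀‖)) : bd m κ =ᶠ[𝓝 y₀] wg m (gr κ r) := by
  have h1 : Continuous fun y : V n => 2 / 3 * (3 / 2 - ‖y‖) := by fun_prop
  filter_upwards [h1.continuousAt.eventually (lt_mem_nhds hy)] with y hy
  exact bd_eq hK hm hr hy

theorem bd_cont {κ Kp : V n → ℝ} (hK : Ker n κ Kp) (hm : Har m) :
    ContinuousOn (bd m κ) (Metric.ball (0 : V n) (3 / 2)) := by
  intro y hy
  rw [mem_ball_zero_iff] at hy
  have h1 := bd_ev hK hm (y₀ := y) (r := (3 / 2 - ‖y‖) / 3) (by linarith) (by linarith)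
  have h2 : ContinuousAt (wg m (gr κ ((3 / 2 - ‖y‖) / 3))) y :=
    (wg_contDiff (gr_smooth hK _) (gr_cs hK (by linarith))).continuous.continuousAt
  exact (h2.congr h1.symm).continuousWithinAt

omit [IsFiniteMeasure m] in
theorem bd_nonneg {κ Kp : V n → ℝ} (hK : Ker n κ Kp) {y : V n} (hy : ‖y‖ < 3 / 2) :
    0 ≤ bd m κ y := integral_nonneg fun x => gr_nonneg hK (by linarith) _

theorem bd_max {κ Kp : V n → ℝ} (hK : Ker n κ Kp) (hm : Har m) {y₀ : V n} (hy : ‖y₀‖ < 3 / 2)
    (hmax : IsLocalMax (bd m κ) y₀) : ∀ᶠ y in 𝓝 y₀, bd m κ y = bd m κ y₀ := by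
  set r := (3 / 2 - ‖y₀‖) / 3 with hr
  have hr0 : 0 < r := by rw [hr]; linarith
  have h1 := bd_ev hK hm (y₀ := y₀) (r := r) hr0 (by rw [hr]; linarith)
  have hw : Continuous (wg m (gr κ r)) := (wg_contDiff (gr_smooth hK _) (gr_cs hK hr0)).continuous
  have h0 : bd m κ y₀ = wg m (gr κ r) y₀ := h1.self_of_nhds
  have h2 : ∀ᶠ y in 𝓝 y₀, wg m (gr κ r) y ≤ wg m (gr κ r) y₀ ∧ bd m κ y = wg m (gr κ r) y := by
    filter_upwards [h1, hmax] with y hy1 hy2
    rw [← hy1, ← h0]
    exact ⟨hy2, rfl⟩
  obtain ⟨δ, hδ, hball⟩ := Metric.eventually_nhds_iff_ball.1 h2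
  set s := min (δ / 2) (r / 2) with hs
  have hs0 : 0 < s := by rw [hs]; positivity
  have hsδ : s < δ := (min_le_left _ _).trans_lt (by linarith)
  have hsr : s ≤ r / 2 := min_le_right _ _
  have h3 := mean_value hK hm hr0 hs0.le (y := y₀) (by rw [hr] at hsr ⊢; linarith)
  set F : V n → ℝ := fun ζ => κ ζ * (wg m (gr κ r) y₀ - wg m (gr κ r) (y₀ + s • ζ)) with hF
  have hFc : Continuous F := hK.smooth.1.continuous.mul
    (continuous_const.sub (hw.comp (by fun_prop)))
  have hF0 : ∀ ζ, 0 ≤ F ζ := by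
    intro ζ
    by_cases hζ : 1 ≤ ‖ζ‖
    · simp only [hF]; rw [ker_zero hK hζ, zero_mul]
    · apply mul_nonneg (ker_nonneg hK ζ)
      have h4 : y₀ + s • ζ ∈ Metric.ball y₀ δ := by
        rw [mem_ball_iff_norm, add_sub_cancel_left, norm_smul, Real.norm_eq_abs, abs_of_pos hs0]
        rw [not_le] at hζ
        nlinarith
      have := (hball _ h4).1
      linarith
  have hFi : Integrable F := by
    apply cont_bdd_cs (f := fun ζ => wg m (gr κ r) y₀ - wg m (gr κ r) (y₀ + s • ζ)) _ hK
    exact continuous_const.sub (hw.comp (by fun_prop))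
  have hFI : ∫ ζ, F ζ = 0 := by
    have h5 : ∀ ζ : V n, F ζ = κ ζ * wg m (gr κ r) y₀ - κ ζ * wg m (gr κ r) (y₀ + s • ζ) := by
      intro ζ; simp only [hF]; ring
    simp only [h5]
    rw [integral_sub, integral_mul_const, hK.one, one_mul, h3, sub_self]
    · exact (ker_integrable hK).mul_const _
    · apply cont_bdd_cs (f := fun ζ => wg m (gr κ r) (y₀ + s • ζ)) _ hK
      exact hw.comp (by fun_prop)
  have hFz : F = 0 := by
    have h6 := (integral_eq_zero_iff_of_nonneg hF0 hFi).1 hFI
    exact (hFc.ae_eq_iff_eq volume continuous_zero).1 h6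
  have h7 : ∀ᶠ y in 𝓝 y₀, nsq (s⁻¹ • (y - y₀)) < 1 := by
    have hc : Continuous fun y : V n => nsq (s⁻¹ • (y - y₀)) := by
      unfold nsq
      fun_prop
    have : nsq (s⁻¹ • (y₀ - y₀)) < 1 := by simp [nsq]
    exact hc.continuousAt.eventually (gt_mem_nhds this)
  filter_upwards [h1, h7] with y hy1 hy2
  rw [hy1, h0]
  have h8 := congrFun hFz (s⁻¹ • (y - y₀))
  simp only [hF, Pi.zero_apply] at h8
  rw [smul_inv_smul₀ hs0.ne', add_sub_cancel] at h8
  have h9 := (hK.pos _ hy2).1
  have := (mul_eq_zero.1 h8).resolve_left h9.ne'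
  linarith


/-- for test functions the measure is given by the density -/
theorem int_eq {κ Kp : V n → ℝ} (hK : Ker n κ Kp) (hm : Har m) {p : V n → ℝ} (hp : Continuous p)
    {R : ℝ} (hR : R < 3 / 2) (hpR : ∀ y, R < ‖y‖ → p y = 0) :
    ∫ x, p x ∂m = ∫ y, p y * bd m κ y := by
  have hc : HasCompactSupport p := HasCompactSupport.intro (isCompact_closedBall (0 : V n) R)
    (fun z hz => hpR z (by rwa [mem_closedBall_zero_iff, not_le] at hz))
  have huc : UniformContinuous p := hc.uniformContinuous_of_continuous hp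
  obtain ⟨C, hC⟩ := hp.bounded_above_of_compact_support hc
  -- the identity for small radii
  have h1 : ∀ r : ℝ, 0 < r → r < 2 / 3 * (3 / 2 - R) →
      ∫ y, p y * bd m κ y = ∫ x, (∫ ζ, κ ζ * p (x + r • ζ)) ∂m := by
    intro r hr hrR
    have h2 : ∀ y, p y * bd m κ y = ∫ x, p y * gr κ r (y - x) ∂m := by
      intro y
      by_cases hy : R < ‖y‖
      · rw [hpR y hy]; simp
      · rw [not_lt] at hy
        rw [bd_eq hK hm hr (by linarith), integral_const_mul]
        rfl
    simp only [h2]
    obtain ⟨D, hD⟩ := (gr_smooth hK r).continuous.bounded_above_of_compact_support (gr_cs hK hr)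
    rw [integral_integral_swap]
    · congr 1
      ext x
      rw [A_eq hr]
      rw [← integral_sub_right_eq_self (fun u => gr κ r u * p (x + u)) x]
      congr 1
      ext y
      rw [add_sub_cancel, mul_comm]
    · have h3 : Integrable (fun q : V n × V n => p q.1 * (fun _ : V n => D) q.2)
          ((volume : Measure (V n)).prod m) :=
        (hp.integrable_of_hasCompactSupport hc).mul_prod (integrable_const D)
      refine h3.mono ?_ ?_
      · have h4 : Continuous (Function.uncurry fun y x => p y * gr κ r (y - x)) := by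
          have := (gr_smooth hK r).continuous
          unfold Function.uncurry
          fun_prop
        exact h4.aestronglyMeasurable
      · refine Eventually.of_forall fun q => ?_
        unfold Function.uncurry
        simp only [norm_mul]
        gcongr
        exact (hD _).trans (Real.le_norm_self _)
  have h5 : ∀ ε : ℝ, 0 < ε → |(∫ y, p y * bd m κ y) - ∫ x, p x ∂m| ≤ ε * m.real univ := by
    intro ε hε
    obtain ⟨δ, hδ, hu⟩ := Metric.uniformContinuous_iff.1 huc ε hε
    set r := min (δ / 2) ((3 / 2 - R) / 3) with hr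
    have hr0 : 0 < r := lt_min (by positivity) (by linarith)
    have hr1 : r < 2 / 3 * (3 / 2 - R) := (min_le_right _ _).trans_lt (by linarith)
    have hr2 : r < δ := (min_le_left _ _).trans_lt (by linarith)
    rw [h1 r hr0 hr1]
    have hPc : ∀ x, Integrable fun ζ => κ ζ * p (x + r • ζ) := by
      intro x
      apply cont_bdd_cs (f := fun ζ => p (x + r • ζ)) _ hK
      fun_prop
    have hpt : ∀ x, ‖(∫ ζ, κ ζ * p (x + r • ζ)) - p x‖ ≤ ε := by
      intro x
      have h6 : (∫ ζ, κ ζ * p (x + r • ζ)) - p x = ∫ ζ, κ ζ * (p (x + r • ζ) - p x) := by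
        have h7 : ∀ ζ : V n, κ ζ * (p (x + r • ζ) - p x) = κ ζ * p (x + r • ζ) - κ ζ * p x := by
          intro ζ; ring
        simp only [h7]
        rw [integral_sub (hPc x) ((ker_integrable hK).mul_const _), integral_mul_const, hK.one,
          one_mul]
      rw [h6]
      have h8 : ∀ ζ : V n, ‖κ ζ * (p (x + r • ζ) - p x)‖ ≤ κ ζ * ε := by
        intro ζ
        by_cases hζ : 1 ≤ ‖ζ‖
        · rw [ker_zero hK hζ]; simp
        · rw [norm_mul, Real.norm_eq_abs, abs_of_nonneg (ker_nonneg hK ζ)]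
          apply mul_le_mul_of_nonneg_left _ (ker_nonneg hK ζ)
          rw [← dist_eq_norm]
          apply (hu _).le
          rw [dist_eq_norm, add_sub_cancel_left, norm_smul, Real.norm_eq_abs, abs_of_pos hr0]
          rw [not_le] at hζ
          nlinarith
      calc ‖∫ ζ, κ ζ * (p (x + r • ζ) - p x)‖ ≤ ∫ ζ, κ ζ * ε :=
            norm_integral_le_of_norm_le ((ker_integrable hK).mul_const _) (Eventually.of_forall h8)
        _ = ε := by rw [integral_mul_const, hK.one, one_mul]
    have hPi : Integrable (fun x => ∫ ζ, κ ζ * p (x + r • ζ)) m := by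
      have h9 : Continuous fun x => ∫ ζ, κ ζ * p (x + r • ζ) := by
        apply continuous_of_dominated (bound := fun ζ => κ ζ * C)
        · intro x
          exact (hPc x).aestronglyMeasurable
        · intro x
          refine Eventually.of_forall fun ζ => ?_
          rw [norm_mul, Real.norm_eq_abs, abs_of_nonneg (ker_nonneg hK ζ)]
          exact mul_le_mul_of_nonneg_left (hC _) (ker_nonneg hK ζ)
        · exact (ker_integrable hK).mul_const _
        · refine Eventually.of_forall fun ζ => ?_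
          fun_prop
      refine (integrable_const (C + ε)).mono' h9.aestronglyMeasurable (Eventually.of_forall fun x => ?_)
      have h10 := hpt x
      have h11 := hC x
      have h12 : ‖∫ ζ, κ ζ * p (x + r • ζ)‖ ≤ ‖(∫ ζ, κ ζ * p (x + r • ζ)) - p x‖ + ‖p x‖ := by
        have := norm_add_le ((∫ ζ, κ ζ * p (x + r • ζ)) - p x) (p x)
        rwa [sub_add_cancel] at this
      linarith
    have hpi : Integrable p m :=
      (integrable_const C).mono' hp.aestronglyMeasurable (Eventually.of_forall hC)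
    rw [← integral_sub hPi hpi]
    have h13 := norm_integral_le_of_norm_le_const (μ := m) (Eventually.of_forall hpt)
    rwa [Real.norm_eq_abs] at h13
  have h6 : |(∫ y, p y * bd m κ y) - ∫ x, p x ∂m| ≤ 0 := by
    apply le_of_forall_pos_le_add
    intro ε hε
    have h7 := h5 (ε / (m.real univ + 1)) (by positivity)
    have h8 : ε / (m.real univ + 1) * m.real univ ≤ 0 + ε := by
      rw [zero_add, div_mul_eq_mul_div, div_le_iff₀ (by positivity)]
      nlinarith
    exact h7.trans h8
  have h7 := abs_eq_zero.1 (le_antisymm h6 (abs_nonneg _))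
  linarith

/-- cutoff -/
noncomputable def cu (R : ℝ) (y : V n) : ℝ := max 0 (min 1 (((R + 3 / 2) / 2 - ‖y‖) / ((3 / 2 - R) / 2)))

theorem cu_cont (R : ℝ) : Continuous (cu (n := n) R) := by
  unfold cu
  fun_prop

theorem cu_one {R : ℝ} (hR : R < 3 / 2) {y : V n} (hy : ‖y‖ ≤ R) : cu R y = 1 := by
  unfold cu
  have h1 : 1 ≤ ((R + 3 / 2) / 2 - ‖y‖) / ((3 / 2 - R) / 2) := by
    rw [one_le_div (by linarith)]
    linarith
  rw [min_eq_left h1]
  norm_num

theorem cu_zero {R : ℝ} (hR : R < 3 / 2) {y : V n} (hy : (R + 3 / 2) / 2 < ‖y‖) : cu R y = 0 := by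
  unfold cu
  have h1 : ((R + 3 / 2) / 2 - ‖y‖) / ((3 / 2 - R) / 2) ≤ 0 :=
    div_nonpos_of_nonpos_of_nonneg (by linarith) (by linarith)
  rw [max_eq_left]
  exact (min_le_right _ _).trans h1

theorem cu_nonneg (R : ℝ) (y : V n) : 0 ≤ cu R y := le_max_left _ _

theorem cu_le (R : ℝ) (y : V n) : cu R y ≤ 1 := max_le (by norm_num) (min_le_left _ _)

theorem restrict_closedBall {κ Kp : V n → ℝ} (hK : Ker n κ Kp) (hm : Har m) {R : ℝ}
    (hR : R < 3 / 2) :
    m.restrict (Metric.closedBall (0 : V n) R) =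
      ((volume : Measure (V n)).withDensity (fun y => ENNReal.ofReal (bd m κ y))).restrict
        (Metric.closedBall (0 : V n) R) := by
  set R' := (R + 3 / 2) / 2 with hR'
  have hR'1 : R' < 3 / 2 := by rw [hR']; linarith
  have hRR' : R < R' := by rw [hR']; linarith
  set D := Metric.closedBall (0 : V n) R with hD
  have hDm : MeasurableSet D := Metric.isClosed_closedBall.measurableSet
  -- integrability of the product
  have hbi : IntegrableOn (bd m κ) (Metric.closedBall (0 : V n) R') := by
    apply ContinuousOn.integrableOn_compact (isCompact_closedBall _ _)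
    apply (bd_cont hK hm).mono
    exact Metric.closedBall_subset_ball hR'1
  have hti : Integrable (fun y => cu R y * bd m κ y) := by
    have h1 : IntegrableOn (fun y => cu R y * bd m κ y) (Metric.closedBall (0 : V n) R') := by
      apply ContinuousOn.integrableOn_compact (isCompact_closedBall _ _)
      exact (cu_cont R).continuousOn.mul ((bd_cont hK hm).mono
        (Metric.closedBall_subset_ball hR'1))
    rw [← integrable_indicator_iff Metric.isClosed_closedBall.measurableSet] at h1
    have h2 : (Metric.closedBall (0 : V n) R').indicator (fun y => cu R y * bd m κ y)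
        = fun y => cu R y * bd m κ y := by
      ext y
      by_cases hy : y ∈ Metric.closedBall (0 : V n) R'
      · rw [indicator_of_mem hy]
      · rw [indicator_of_notMem hy, cu_zero hR, zero_mul]
        rwa [mem_closedBall_zero_iff, not_le] at hy
    rwa [h2] at h1
  have hci : Integrable (cu R) m :=
    (integrable_const 1).mono' (cu_cont R).aestronglyMeasurable (Eventually.of_forall fun y => by
      rw [Real.norm_eq_abs, abs_of_nonneg (cu_nonneg R y)]; exact cu_le R y)
  have hpos : ∀ y : V n, 0 ≤ cu R y * bd m κ y := by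
    intro y
    by_cases hy : R' < ‖y‖
    · rw [cu_zero hR hy, zero_mul]
    · rw [not_lt] at hy
      exact mul_nonneg (cu_nonneg R y) (bd_nonneg hK (by linarith))
  have f1 : IsFiniteMeasure (m.withDensity fun y => ENNReal.ofReal (cu R y)) :=
    isFiniteMeasure_withDensity_ofReal hci.2
  have f2 : IsFiniteMeasure ((volume : Measure (V n)).withDensity
      fun y => ENNReal.ofReal (cu R y * bd m κ y)) :=
    isFiniteMeasure_withDensity_ofReal hti.2
  have key : (m.withDensity fun y => ENNReal.ofReal (cu R y)) =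
      (volume : Measure (V n)).withDensity fun y => ENNReal.ofReal (cu R y * bd m κ y) := by
    apply ext_of_forall_integral_eq_of_IsFiniteMeasure
    intro f
    rw [integral_withDensity_eq_integral_toReal_smul₀
        (cu_cont R).measurable.ennreal_ofReal.aemeasurable
        (Eventually.of_forall fun y => ENNReal.ofReal_lt_top),
      integral_withDensity_eq_integral_toReal_smul₀
        hti.1.aemeasurable.ennreal_ofReal
        (Eventually.of_forall fun y => ENNReal.ofReal_lt_top)]
    have h3 : ∀ y : V n, (ENNReal.ofReal (cu R y)).toReal • f y = cu R y * f y := by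
      intro y
      rw [ENNReal.toReal_ofReal (cu_nonneg R y), smul_eq_mul]
    have h4 : ∀ y : V n, (ENNReal.ofReal (cu R y * bd m κ y)).toReal • f y
        = (cu R y * f y) * bd m κ y := by
      intro y
      rw [ENNReal.toReal_ofReal (hpos y), smul_eq_mul]
      ring
    simp only [h3, h4]
    apply int_eq hK hm ((cu_cont R).mul f.continuous) hR'1
    intro y hy
    rw [Pi.mul_apply, cu_zero hR hy, zero_mul]
  have h5 : m.restrict D = (m.withDensity fun y => ENNReal.ofReal (cu R y)).restrict D := by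
    rw [restrict_withDensity hDm]
    rw [withDensity_congr_ae (g := 1), withDensity_one]
    filter_upwards [ae_restrict_mem hDm] with y hy
    rw [cu_one hR (by rwa [hD, mem_closedBall_zero_iff] at hy)]
    simp
  rw [h5, key, restrict_withDensity hDm, restrict_withDensity hDm]
  apply withDensity_congr_ae
  filter_upwards [ae_restrict_mem hDm] with y hy
  rw [cu_one hR (by rwa [hD, mem_closedBall_zero_iff] at hy), one_mul]

end Pool.Agent.H57.VG.Wey

namespace Pool.Agent.H57.VG

open Pool.Agent.H95.VG Wey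

/-- Weyl's lemma for positive measures, with the maximum principle -/
theorem wey (hKER : T_KER) : T_WEY := by
  intro n m hn hfin hm
  obtain ⟨κ, Kp, hK⟩ := hKER n hn
  refine ⟨bd m κ, bd_cont hK hm, fun y hy => bd_nonneg hK (by rwa [mem_ball_zero_iff] at hy), ?_,
    fun y hy hmax => bd_max hK hm (by rwa [mem_ball_zero_iff] at hy) hmax⟩
  have hU : Metric.ball (0 : V n) (3 / 2)
      = ⋃ k : ℕ, Metric.closedBall (0 : V n) (3 / 2 - 1 / ((k : ℝ) + 1)) := by
    ext y
    simp only [mem_ball_zero_iff, mem_iUnion, mem_closedBall_zero_iff]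
    constructor
    · intro hy
      obtain ⟨k, hk⟩ := exists_nat_one_div_lt (sub_pos.2 hy)
      exact ⟨k, by linarith⟩
    · rintro ⟨k, hk⟩
      have : 0 < 1 / ((k : ℝ) + 1) := by positivity
      linarith
  rw [← restrict_withDensity Metric.isOpen_ball.measurableSet, hU,
    Measure.restrict_iUnion_congr]
  intro k
  have h1 : 0 < 1 / ((k : ℝ) + 1) := by positivity
  have h2 : 1 / ((k : ℝ) + 1) ≤ 1 := by
    rw [div_le_one (by positivity)]
    have : (0 : ℝ) ≤ k := by positivity
    linarith
  exact restrict_closedBall hK hm (by linarith)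

end Pool.Agent.H57.VG
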